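import Pool.Agent.H295R2.MK.Final
import Pool.Agent.H306R2.SM.Asm1

set_option autoImplicit false

/-!
# Twisted mean values of `ζ^j` on Gaussian windows of width `T^θ`, any `θ ∈ (0, 1)`

Decoupled versions (width `T^(η.1)`, length of the polynomials `T^(η.1 - η.2)`) of the mean value
theorems of `Pool.Agent.H802R2.MK`, `H295MK`, `H89R2.MKR3`, `H578R2.MKR4`, `H384MK`.
-/

namespace Pool.Agent.H176RZ.D

open Finset Filter Topology MeasureTheory Complex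
open Pool.Agent.H306R2 hiding fr
open H295MK

noncomputable section

/-- width of the window -/
def Hu (η : ℝ × ℝ) (T : ℝ) : ℝ := T ^ η.1

/-- length of the polynomials -/
def Yu (η : ℝ × ℝ) (T : ℝ) : ℝ := T ^ (η.1 - η.2)

/-- the Gaussian window at `τ` -/
def wiU (η : ℝ × ℝ) (δ T τ : ℝ) (F : ℝ → ℂ) : ℂ :=
  ∫ t in (τ - δ / 2 * T)..(τ + δ / 2 * T), F t * (gw τ (Hu η T) t : ℂ)

/-- the same for real functions -/
def wiR (η : ℝ × ℝ) (δ T τ : ℝ) (F : ℝ → ℝ) : ℝ :=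
  ∫ t in (τ - δ / 2 * T)..(τ + δ / 2 * T), F t * gw τ (Hu η T) t

/-- admissible exponents -/
structure Ok (η : ℝ × ℝ) : Prop where
  h1 : 0 < η.2
  h2 : η.2 < η.1
  h3 : η.1 + η.2 ≤ 1

lemma HY_sq (η : ℝ × ℝ) (T : ℝ) (hT : 0 < T) :
    Hu η T ^ 2 / (32 * Yu η T ^ 2) = T ^ (2 * η.2) / 32 := by
  unfold Hu Yu
  rw [← Real.rpow_natCast, ← Real.rpow_natCast, ← Real.rpow_mul hT.le, ← Real.rpow_mul hT.le]
  rw [show T ^ (2 * η.2) = T ^ (η.1 * ((2:ℕ):ℝ)) / T ^ ((η.1 - η.2) * ((2:ℕ):ℝ)) by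
    rw [← Real.rpow_sub hT]; congr 1; push_cast; ring]
  have : (0:ℝ) < T ^ ((η.1 - η.2) * ((2:ℕ):ℝ)) := Real.rpow_pos_of_pos hT _
  field_simp

lemma RH_sq (η : ℝ × ℝ) (T a : ℝ) (hT : 1 ≤ T) (h : η.1 + η.2 ≤ 1) :
    a ^ 2 * T ^ (2 * η.2) ≤ (a * T) ^ 2 / Hu η T ^ 2 := by
  have hT0 : 0 < T := by linarith
  unfold Hu
  rw [← Real.rpow_natCast (T ^ η.1), ← Real.rpow_mul hT0.le, mul_pow, mul_div_assoc]
  apply mul_le_mul_of_nonneg_left _ (by positivity)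
  rw [← Real.rpow_natCast T 2, ← Real.rpow_sub hT0]
  apply Real.rpow_le_rpow_of_exponent_le hT
  push_cast
  linarith

lemma HY_le (η : ℝ × ℝ) (T K : ℝ) (hT : 0 < T) (hK : K ≤ T ^ (η.1 + η.2)) :
    K * Yu η T ≤ Hu η T ^ 2 := by
  unfold Hu Yu
  rw [← Real.rpow_natCast (T ^ η.1), ← Real.rpow_mul hT.le]
  have : T ^ (η.1 * ((2:ℕ):ℝ)) = T ^ (η.1 + η.2) * T ^ (η.1 - η.2) := by
    rw [← Real.rpow_add hT]; congr 1; push_cast; ring
  rw [this]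
  have : (0:ℝ) < T ^ (η.1 - η.2) := Real.rpow_pos_of_pos hT _
  gcongr

lemma Yu_le {η : ℝ × ℝ} (hη : Ok η) {T : ℝ} (hT : 1 ≤ T) : Yu η T ≤ T := by
  unfold Yu
  have := hη.h1
  have := hη.h3
  calc T ^ (η.1 - η.2) ≤ T ^ (1:ℝ) := Real.rpow_le_rpow_of_exponent_le hT (by linarith)
    _ = T := Real.rpow_one T

lemma one_le_Yu {η : ℝ × ℝ} (hη : Ok η) {T : ℝ} (hT : 1 ≤ T) : 1 ≤ Yu η T :=
  Real.one_le_rpow hT (by have := hη.h2; linarith)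

lemma one_le_Hu {η : ℝ × ℝ} (hη : Ok η) {T : ℝ} (hT : 1 ≤ T) : 1 ≤ Hu η T :=
  Real.one_le_rpow hT (by have := hη.h1; have := hη.h2; linarith)

lemma Yu_pos {η : ℝ × ℝ} {T : ℝ} (hT : 0 < T) : 0 < Yu η T := Real.rpow_pos_of_pos hT _

lemma Yu_tendsto {η : ℝ × ℝ} (hη : Ok η) :
    Tendsto (fun T => Real.log (Yu η T)) atTop atTop := by
  unfold Yu
  exact Real.tendsto_log_atTop.comp (tendsto_rpow_atTop (by have := hη.h2; linarith))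

theorem core_evB (B : ℕ) (j c0 : ℕ) (η : ℝ × ℝ) (δ : ℝ) (hη : Ok η) (hδ : 0 < δ) (hδ1 : δ ≤ 1) :
    ∀ᶠ T : ℝ in atTop, ∀ τ : ℝ, δ * T ≤ τ → τ ≤ T → ∀ A G : ArithmeticFunction ℝ,
      PB A c0 → (∀ n : ℕ, T < n → A n = 0) → PB G c0 →
      ‖(∫ t in (τ - δ / 2 * T)..(τ + δ / 2 * T), (riemannZeta (1 / 2 + t * Complex.I) ^ j *
          Dp A T (1 / 2 + t * Complex.I)) *
        (starRingEnd ℂ) (Dp G (Yu η T) (1 / 2 + t * Complex.I)) * (gw τ (Hu η T) t : ℂ)) -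
      ((∑ m ∈ Icc 1 ⌊Yu η T⌋₊, (zR ^ j * A) m * G m / m : ℝ) : ℂ)‖ ≤ 1 / T ^ B := by
  set c : ℕ := j + c0 + 1 with hc
  set κ : ℝ := min (1 / 32) (δ ^ 2 / 8) with hκ
  have hκ0 : 0 < κ := lt_min (by norm_num) (by positivity)
  set P : ℕ := (3 * c + 4) + (c0 + 1) + 2 * j + (2 * c + 3) with hP
  set K : ℝ := Z2 + Z2 * Real.exp (((c:ℝ) + 2) ^ 2) * 2 +
    2 * (((c:ℝ) + 2) * (6 ^ j * ((c:ℝ) + 5) ^ (2 * j) * Real.exp (((c:ℝ) + 2) ^ 2))) with hK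
  have hpw : ∀ᶠ T : ℝ in atTop, 16 * (2 * (c:ℝ) + 3) ≤ T ^ (η.1 + η.2) :=
    (tendsto_rpow_atTop (by have := hη.h1; have := hη.h2; linarith)).eventually_ge_atTop _
  filter_upwards [small_ev (P + B) κ η.2 K hκ0 hη.h1, eventually_ge_atTop 1,
    eventually_ge_atTop (2 / δ), hpw] with T hsmall0 hT1 hT2 hT3 τ hτ1 hτ2 A G hA hAX hG
  have hT0 : 0 < T := by linarith
  have hsmall : K * (T ^ P * Real.exp (-(κ * T ^ (2 * η.2)))) ≤ 1 / T ^ B := by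
    rw [le_div_iff₀ (by positivity)]
    refine le_trans (le_of_eq ?_) hsmall0
    rw [pow_add]
    ring
  have hc0 : (0:ℝ) ≤ c := Nat.cast_nonneg c
  have hY1 : 1 ≤ Yu η T := one_le_Yu hη hT1
  have hYT : Yu η T ≤ T := Yu_le hη hT1
  have hH1 : 1 ≤ Hu η T := one_le_Hu hη hT1
  have hδT : 2 ≤ δ * T := by
    rw [div_le_iff₀ hδ] at hT2
    linarith
  have hf : PB (zR ^ j * A) c := by
    have h1 := (PB_zR.pow j).mul hA
    rw [show j * (0 + 1) + c0 + 1 = c by rw [hc]; ring] at h1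
    exact h1
  have hg : PB G c := hG.mono (by omega)
  have hcont := contour (fun s => riemannZeta s ^ j * Dp A T s) (6 ^ j * T ^ (c0 + 1)) (by positivity)
    (2 * j) ?_ ?_ (fun n => (zR ^ j * A) n) (fun n => G n) (Yu η T) τ (Hu η T) (δ / 2 * T)
    (((c:ℝ) + 5) * T) hY1 hH1 c (by simp) hf hg (HY_le η T _ hT0 hT3) ?_ (by positivity)
    (by linarith) ?_
  rotate_left
  · intro s hs hs1
    have := differentiableAt_riemannZeta hs1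
    exact (this.pow j).mul (Dp_differentiable _ T s)
  · intro s hs him
    have h1 : (1:ℝ) / 2 ≤ ‖s - 1‖ := by
      have := Complex.abs_im_le_norm (s - 1)
      simp only [Complex.sub_im, Complex.one_im, sub_zero] at this
      linarith
    have h2 := zeta_norm_le hs h1
    have h3 := norm_Dp_le (fun n => A n) T hT1 c0 hA s (by linarith)
    rw [norm_mul, norm_pow]
    calc ‖riemannZeta s‖ ^ j * ‖Dp (fun n => A n) T s‖ ≤
        (6 * (‖s‖ + 1) ^ 2) ^ j * T ^ (c0 + 1) := by gcongr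
      _ = 6 ^ j * T ^ (c0 + 1) * (‖s‖ + 1) ^ (2 * j) := by
          rw [mul_pow, ← pow_mul]; ring
  · intro y
    have := zetaA_hasSum j A T hAX (((1 / 2 + ((c:ℝ) + 2) : ℝ) : ℂ) + y * Complex.I) (by
      simp; linarith)
    exact this
  · nlinarith
  refine hcont.trans (le_trans ?_ hsmall)
  -- exponentials
  have hTp : (0:ℝ) < T ^ (2 * η.2) := Real.rpow_pos_of_pos hT0 _
  have hx1 : Real.exp (-(Hu η T ^ 2 / (32 * Yu η T ^ 2))) ≤ Real.exp (-(κ * T ^ (2 * η.2))) := by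
    apply Real.exp_le_exp.mpr
    rw [HY_sq η T hT0]
    have h1 : κ ≤ 1 / 32 := min_le_left _ _
    nlinarith
  have hx2 : Real.exp (-((δ / 2 * T) ^ 2 / (2 * Hu η T ^ 2))) ≤
      Real.exp (-(κ * T ^ (2 * η.2))) := by
    apply Real.exp_le_exp.mpr
    have e := RH_sq η T (δ / 2) hT1 hη.h3
    have h0 : (0:ℝ) < Hu η T ^ 2 := by positivity
    rw [show (δ / 2 * T) ^ 2 / (2 * Hu η T ^ 2) = ((δ / 2 * T) ^ 2 / Hu η T ^ 2) / 2 by field_simp]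
    have h1 : κ ≤ δ ^ 2 / 8 := min_le_right _ _
    have h2 : κ * T ^ (2 * η.2) ≤ δ ^ 2 / 8 * T ^ (2 * η.2) :=
      mul_le_mul_of_nonneg_right h1 hTp.le
    linarith
  have hx3 : Real.exp (-((δ / 2 * T) ^ 2 / Hu η T ^ 2)) ≤ Real.exp (-(κ * T ^ (2 * η.2))) := by
    refine le_trans ?_ hx2
    apply Real.exp_le_exp.mpr
    have h0 : (0:ℝ) < Hu η T ^ 2 := by positivity
    have : (δ / 2 * T) ^ 2 / (2 * Hu η T ^ 2) ≤ (δ / 2 * T) ^ 2 / Hu η T ^ 2 := by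
      gcongr
      linarith
    linarith
  have hx4 : Real.exp (((c:ℝ) + 2) ^ 2 / Hu η T ^ 2) ≤ Real.exp (((c:ℝ) + 2) ^ 2) := by
    apply Real.exp_le_exp.mpr
    apply div_le_self (by positivity)
    exact one_le_pow₀ hH1
  have hZ := Z2_nonneg
  set E := Real.exp (-(κ * T ^ (2 * η.2))) with hE
  have hE0 : 0 < E := Real.exp_pos _
  have hYp : ∀ a : ℕ, a ≤ P → Yu η T ^ a ≤ T ^ P := fun a ha =>
    (pow_le_pow_left₀ (by linarith) hYT a).trans (pow_le_pow_right₀ hT1 ha)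
  have t1 : Z2 * (Yu η T ^ (3 * c + 4) * Real.exp (-(Hu η T ^ 2 / (32 * Yu η T ^ 2)))) ≤
      Z2 * (T ^ P * E) := by
    have := hYp (3 * c + 4) (by omega)
    gcongr
  have t2 : Z2 * (Yu η T ^ (2 * c + 3) * Real.exp (((c:ℝ) + 2) ^ 2 / Hu η T ^ 2)) *
        (2 * Real.exp (-((δ / 2 * T) ^ 2 / (2 * Hu η T ^ 2)))) ≤
      Z2 * Real.exp (((c:ℝ) + 2) ^ 2) * 2 * (T ^ P * E) := by
    have := hYp (2 * c + 3) (by omega)
    calc _ ≤ Z2 * (T ^ P * Real.exp (((c:ℝ) + 2) ^ 2)) * (2 * E) := by gcongr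
      _ = _ := by ring
  have t3 : 2 * (((c:ℝ) + 2) * (6 ^ j * T ^ (c0 + 1) * (((c:ℝ) + 5) * T) ^ (2 * j) *
        Yu η T ^ (2 * c + 3) *
        (Real.exp (((c:ℝ) + 2) ^ 2 / Hu η T ^ 2) * Real.exp (-((δ / 2 * T) ^ 2 / Hu η T ^ 2))))) ≤
      2 * (((c:ℝ) + 2) * (6 ^ j * ((c:ℝ) + 5) ^ (2 * j) * Real.exp (((c:ℝ) + 2) ^ 2))) *
        (T ^ P * E) := by
    have h1 : Yu η T ^ (2 * c + 3) ≤ T ^ (2 * c + 3) := pow_le_pow_left₀ (by linarith) hYT _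
    have h2 : T ^ (c0 + 1) * T ^ (2 * j) * T ^ (2 * c + 3) ≤ T ^ P := by
      rw [← pow_add, ← pow_add]
      exact pow_le_pow_right₀ hT1 (by omega)
    calc _ ≤ 2 * (((c:ℝ) + 2) * (6 ^ j * T ^ (c0 + 1) * (((c:ℝ) + 5) * T) ^ (2 * j) *
        T ^ (2 * c + 3) * (Real.exp (((c:ℝ) + 2) ^ 2) * E))) := by gcongr
      _ = 2 * (((c:ℝ) + 2) * (6 ^ j * ((c:ℝ) + 5) ^ (2 * j) * Real.exp (((c:ℝ) + 2) ^ 2))) *
          ((T ^ (c0 + 1) * T ^ (2 * j) * T ^ (2 * c + 3)) * E) := by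
          rw [mul_pow]; ring
      _ ≤ _ := by gcongr
  calc _ ≤ Z2 * (T ^ P * E) + Z2 * Real.exp (((c:ℝ) + 2) ^ 2) * 2 * (T ^ P * E) +
      2 * (((c:ℝ) + 2) * (6 ^ j * ((c:ℝ) + 5) ^ (2 * j) * Real.exp (((c:ℝ) + 2) ^ 2))) *
        (T ^ P * E) := add_le_add (add_le_add t1 t2) t3
    _ = K * (T ^ P * E) := by rw [hK]; ring

open Pool.Agent.H802R2.MK (dl dl_ne PB_dl Dp_dl main_dl pt)

/-- R1, decoupled -/
theorem R1 (j B : ℕ) (η : ℝ × ℝ) (δ : ℝ) (hη : Ok η) (hδ : 0 < δ) (hδ1 : δ ≤ 1) :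
    ∀ᶠ T : ℝ in atTop, ∀ τ : ℝ, δ * T ≤ τ → τ ≤ T → ∀ a b : ℕ, 1 ≤ a → (a : ℝ) ≤ T → 1 ≤ b →
    (b : ℝ) ≤ Yu η T →
    ‖wiU η δ T τ (fun t => riemannZeta (cl t) ^ j * fr a b t) - (mt j a b : ℂ)‖ ≤ 1 / T ^ B := by
  filter_upwards [core_evB (B + 1) j 0 η δ hη hδ hδ1, eventually_ge_atTop 1] with T hT hT1 τ hτ1 hτ2 a b ha haT hb hbY
  have hT0 : 0 < T := by linarith
  have hYT : Yu η T ≤ T := Yu_le hη hT1
  have ha0 : (0 : ℝ) < a := by exact_mod_cast ha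
  have hb0 : (0 : ℝ) < b := by exact_mod_cast hb
  have h := hT τ hτ1 hτ2 (dl a) (dl b) (PB_dl a) (fun n hn => dl_ne (by
    rintro rfl
    linarith)) (PB_dl b)
  rw [main_dl j ha hb hbY] at h
  set S : ℝ := Real.sqrt ((a : ℝ) * b) with hS
  have hS0 : 0 ≤ S := Real.sqrt_nonneg _
  have hST : S ≤ T := by
    rw [hS, Real.sqrt_le_left hT0.le]
    nlinarith
  have e1 : wiU η δ T τ (fun t => riemannZeta (cl t) ^ j * H295MK.fr a b t) =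
      (S : ℂ) * ∫ t in (τ - δ / 2 * T)..(τ + δ / 2 * T), (riemannZeta (1 / 2 + t * Complex.I) ^ j *
          Dp (dl a) T (1 / 2 + t * Complex.I)) *
        (starRingEnd ℂ) (Dp (dl b) (Yu η T) (1 / 2 + t * Complex.I)) * (gw τ (Hu η T) t : ℂ) := by
    unfold wiU
    rw [← intervalIntegral.integral_const_mul]
    congr 1
    ext t
    rw [Dp_dl ha haT, Dp_dl hb hbY]
    show riemannZeta (cl t) ^ j * H295MK.fr a b t * _ = _
    rw [pt ha hb t]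
    unfold cl
    ring
  have e2 : (H295MK.mt j a b : ℂ) = (S : ℂ) * (((if a ∣ b then dv j (b / a) else 0) / b : ℝ) : ℂ) := by
    rw [← Complex.ofReal_mul]
    congr 1
    unfold H295MK.mt
    split_ifs with h1
    · have h2 : Real.sqrt ((a : ℝ) / b) = S / b := by
        rw [hS, show (a : ℝ) / b = (a * b) / (b ^ 2) by field_simp, Real.sqrt_div (by positivity),
          Real.sqrt_sq hb0.le]
      rw [h2]
      ring
    · simp
  rw [e1, e2, ← mul_sub, norm_mul, Complex.norm_real, Real.norm_of_nonneg hS0]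
  calc S * _ ≤ T * (1 / T ^ (B + 1)) := mul_le_mul hST h (norm_nonneg _) hT0.le
    _ = 1 / T ^ B := by
      rw [pow_succ]
      field_simp

theorem twO (B : ℕ) (η : ℝ × ℝ) (δ : ℝ) (hη : Ok η) (hδ : 0 < δ) (hδ1 : δ ≤ 1) :
    ∀ᶠ T : ℝ in atTop, ∀ τ : ℝ, δ * T ≤ τ → τ ≤ T → ∀ a b : ℕ, 1 ≤ a → (a : ℝ) ≤ T → 1 ≤ b →
    (b : ℝ) ≤ Yu η T →
    ‖wiU η δ T τ (fun t => fr a b t) - (if a = b then 1 else 0 : ℂ)‖ ≤ 1 / T ^ B := by
  filter_upwards [R1 0 B η δ hη hδ hδ1] with T hT τ hτ1 hτ2 a b ha haT hb hbY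
  have := hT τ hτ1 hτ2 a b ha haT hb hbY
  rw [mt_zero a b ha hb] at this
  simp only [pow_zero, one_mul] at this
  have h5 : (((if a = b then (1 : ℝ) else 0) : ℝ) : ℂ) = if a = b then 1 else 0 := by
    split_ifs <;> simp
  rw [h5] at this
  exact this

end

end Pool.Agent.H176RZ.D
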