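import Pool.Agent.H176RZ.DecA

set_option autoImplicit false

/-!
# The three inputs of Hölder's inequality on windows of width `T^θ`
-/

namespace Pool.Agent.H176RZ.D.N

open Finset Filter Topology MeasureTheory Complex
open Pool.Agent.H306R2 hiding fr
open H295MK
open Pool.Agent.H89R2.MKR3 hiding integral_eq winN

noncomputable section

/-- the integral as a sum of twisted integrals -/
lemma integral_eq (j : ℕ) (η : ℝ × ℝ) (δ T τ X : ℝ) :
    ∫ t in (τ - δ / 2 * T)..(τ + δ / 2 * T), (riemannZeta (cl t) ^ j * VV j X t) *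
      (starRingEnd ℂ) (CC j X t) * (gw τ (Hu η T) t : ℂ) =
    ∑ b ∈ SP X, ∑ n ∈ Icc 1 ⌊X⌋₊, ((vn j n * cc j X b : ℝ) : ℂ) *
      wiU η δ T τ (fun t => riemannZeta (cl t) ^ j * fr b.2 (n * b.1) t) := by
  have hc : ∀ b : ℕ × ℕ, ∀ n : ℕ, Continuous (fun t : ℝ => ((vn j n * cc j X b : ℝ) : ℂ) *
      (riemannZeta (cl t) ^ j * fr b.2 (n * b.1) t * (gw τ (Hu η T) t : ℂ))) := by
    intro b n
    refine continuous_const.mul (((Continuous.pow ?_ j).mul (fr_cont _ _)).mul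
      (Complex.continuous_ofReal.comp (gw_continuous _ _)))
    exact zeta_line_continuous
  unfold wiU
  have e2 : ∑ b ∈ SP X, ∑ n ∈ Icc 1 ⌊X⌋₊, ((vn j n * cc j X b : ℝ) : ℂ) *
      ∫ t in (τ - δ / 2 * T)..(τ + δ / 2 * T), riemannZeta (cl t) ^ j * fr b.2 (n * b.1) t *
        (gw τ (Hu η T) t : ℂ) =
      ∫ t in (τ - δ / 2 * T)..(τ + δ / 2 * T), ∑ b ∈ SP X, ∑ n ∈ Icc 1 ⌊X⌋₊,
        ((vn j n * cc j X b : ℝ) : ℂ) *
        (riemannZeta (cl t) ^ j * fr b.2 (n * b.1) t * (gw τ (Hu η T) t : ℂ)) := by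
    rw [intervalIntegral.integral_finsetSum]
    · refine sum_congr rfl fun b _ => ?_
      rw [intervalIntegral.integral_finsetSum]
      · refine sum_congr rfl fun n _ => ?_
        rw [intervalIntegral.integral_const_mul]
      · intro n _
        exact (hc b n).intervalIntegrable _ _
    · intro b _
      exact (continuous_finsetSum _ fun n _ => hc b n).intervalIntegrable _ _
  rw [e2]
  refine intervalIntegral.integral_congr fun t _ => ?_
  show (riemannZeta (cl t) ^ j * VV j X t) *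
      (starRingEnd ℂ) (CC j X t) * (gw τ (Hu η T) t : ℂ) = _
  unfold VV CC
  rw [map_sum]
  have e3 : (riemannZeta (cl t) ^ j * ∑ n ∈ Icc 1 ⌊X⌋₊, ((dv j n / Real.sqrt n : ℝ) : ℂ) * fr 1 n t) *
      (∑ b ∈ SP X, (starRingEnd ℂ) ((cc j X b : ℂ) * fr b.1 b.2 t)) * (gw τ (Hu η T) t : ℂ) =
      (riemannZeta (cl t) ^ j * (gw τ (Hu η T) t : ℂ)) *
        ((∑ b ∈ SP X, (starRingEnd ℂ) ((cc j X b : ℂ) * fr b.1 b.2 t)) *
        ∑ n ∈ Icc 1 ⌊X⌋₊, ((dv j n / Real.sqrt n : ℝ) : ℂ) * fr 1 n t) := by ring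
  rw [e3, sum_mul_sum, mul_sum]
  refine sum_congr rfl fun b hb => ?_
  rw [mul_sum]
  refine sum_congr rfl fun n hn => ?_
  obtain ⟨h1, _, _, _, _⟩ := mem_SP hb
  rw [map_mul, Complex.conj_ofReal, fr_conj, ← fr_mul n b.1 b.2 (mem_Icc.1 hn).1 h1]
  unfold vn
  push_cast
  ring

/-- R3 -/
theorem winN (j : ℕ) (η : ℝ × ℝ) (δ : ℝ) (hη : Ok η) (hδ : 0 < δ) (hδ1 : δ ≤ 1) :
    ∀ᶠ T : ℝ in atTop, ∀ τ : ℝ, δ * T ≤ τ → τ ≤ T →
    EE j (Yu η T ^ (1 / 2 : ℝ)) - 1 ≤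
      ‖∫ t in (τ - δ / 2 * T)..(τ + δ / 2 * T), (riemannZeta (cl t) ^ j *
        VV j (Yu η T ^ (1 / 2 : ℝ)) t) * (starRingEnd ℂ) (CC j (Yu η T ^ (1 / 2 : ℝ)) t) *
          (gw τ (Hu η T) t : ℂ)‖ := by
  filter_upwards [R1 j (3 * j + 4) η δ hη hδ hδ1, eventually_ge_atTop 1] with T hT hT1 τ hτ1 hτ2
  have hT0 : 0 < T := by linarith
  set X : ℝ := Yu η T ^ (1 / 2 : ℝ) with hX
  have hY1 : 1 ≤ Yu η T := one_le_Yu hη hT1
  have hX1 : 1 ≤ X := Real.one_le_rpow hY1 (by norm_num)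
  have hXX : X * X = Yu η T := by
    rw [hX, ← Real.rpow_add (by linarith)]
    norm_num
  have hYT : Yu η T ≤ T := Yu_le hη hT1
  have hXT : X ≤ T := by nlinarith
  have hX0 : 0 ≤ X := by linarith
  have hfl : ((⌊X⌋₊ : ℕ) : ℝ) ≤ X := Nat.floor_le hX0
  rw [integral_eq j η δ T τ X]
  set S : ℂ := ∑ b ∈ SP X, ∑ n ∈ Icc 1 ⌊X⌋₊, ((vn j n * cc j X b : ℝ) : ℂ) *
      wiU η δ T τ (fun t => riemannZeta (cl t) ^ j * fr b.2 (n * b.1) t) with hS
  have hE : ((EE j X : ℝ) : ℂ) = ∑ b ∈ SP X, ∑ n ∈ Icc 1 ⌊X⌋₊,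
      ((vn j n * cc j X b : ℝ) : ℂ) * (mt j b.2 (n * b.1) : ℂ) := by
    rw [← EE_main j X]
    push_cast
    rfl
  have hdiff : ‖S - ((EE j X : ℝ) : ℂ)‖ ≤ 1 := by
    rw [hE, hS, ← sum_sub_distrib]
    have hb1 : ∀ b ∈ SP X, ‖∑ n ∈ Icc 1 ⌊X⌋₊, ((vn j n * cc j X b : ℝ) : ℂ) *
        wiU η δ T τ (fun t => riemannZeta (cl t) ^ j * fr b.2 (n * b.1) t) -
        ∑ n ∈ Icc 1 ⌊X⌋₊, ((vn j n * cc j X b : ℝ) : ℂ) * (mt j b.2 (n * b.1) : ℂ)‖ ≤
        T * (T ^ j * (T * (T ^ j * T ^ j)) * (1 / T ^ (3 * j + 4))) := by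
      intro b hb
      obtain ⟨h1, h2, h3, h4, h5⟩ := mem_SP hb
      have hb1X : (b.1 : ℝ) ≤ X := le_trans (by exact_mod_cast h2) hfl
      have hb2X : (b.2 : ℝ) ≤ X := le_trans (by exact_mod_cast h4) hfl
      rw [← sum_sub_distrib]
      refine (norm_sum_le _ _).trans ?_
      refine (sum_le_card_nsmul _ _ (T ^ j * (T * (T ^ j * T ^ j)) * (1 / T ^ (3 * j + 4)))
        fun n hn => ?_).trans ?_
      · rw [mem_Icc] at hn
        have hnX : (n : ℝ) ≤ X := le_trans (by exact_mod_cast hn.2) hfl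
        rw [← mul_sub, norm_mul, Complex.norm_real, Real.norm_eq_abs, abs_mul]
        refine mul_le_mul (mul_le_mul (vn_abs_le j n hT1 hn.1 (hnX.trans hXT))
          (cc_abs_le j X hT1 (hXX.le.trans hYT) hX1 b hb) (abs_nonneg _) (by positivity)) ?_
          (norm_nonneg _) (by positivity)
        refine hT τ hτ1 hτ2 b.2 (n * b.1) h3 (hb2X.trans hXT)
          (Nat.one_le_iff_ne_zero.2 (Nat.mul_ne_zero (by omega) (by omega))) ?_
        rw [← hXX]
        push_cast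
        exact mul_le_mul hnX hb1X (by positivity) hX0
      · rw [nsmul_eq_mul, Nat.card_Icc, Nat.add_sub_cancel]
        exact mul_le_mul_of_nonneg_right (hfl.trans hXT) (by positivity)
    refine (norm_sum_le _ _).trans ((sum_le_card_nsmul _ _ _ hb1).trans ?_)
    rw [nsmul_eq_mul]
    have hcard : ((SP X).card : ℝ) ≤ T * T := by
      have h1 : (SP X).card ≤ ⌊X⌋₊ * ⌊X⌋₊ := by
        unfold SP
        refine (card_filter_le _ _).trans ?_
        rw [card_product, Nat.card_Icc, Nat.add_sub_cancel]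
      calc ((SP X).card : ℝ) ≤ ((⌊X⌋₊ * ⌊X⌋₊ : ℕ) : ℝ) := by exact_mod_cast h1
        _ = (⌊X⌋₊ : ℝ) * ⌊X⌋₊ := by push_cast; rfl
        _ ≤ T * T := mul_le_mul (hfl.trans hXT) (hfl.trans hXT) (by positivity) hT0.le
    calc _ ≤ T * T * (T * (T ^ j * (T * (T ^ j * T ^ j)) * (1 / T ^ (3 * j + 4)))) :=
          mul_le_mul_of_nonneg_right hcard (by positivity)
      _ = T ^ (3 * j + 4) * (1 / T ^ (3 * j + 4)) := by ring
      _ = 1 := mul_one_div_cancel (by positivity)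
      _ ≤ 1 := le_rfl
  have h1 : EE j X ≤ ‖((EE j X : ℝ) : ℂ)‖ := by
    rw [Complex.norm_real]
    exact le_abs_self _
  have h2 : ‖((EE j X : ℝ) : ℂ)‖ ≤ ‖S‖ + ‖S - ((EE j X : ℝ) : ℂ)‖ := by
    have := norm_sub_le S (S - ((EE j X : ℝ) : ℂ))
    rwa [sub_sub_cancel] at this
  linarith

end

end Pool.Agent.H176RZ.D.N

namespace Pool.Agent.H176RZ.D.C

open Finset Filter Topology MeasureTheory Complex
open Pool.Agent.H306R2 hiding fr
open H295MK
open Pool.Agent.H578R2.MKR4 hiding win_sum winC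

noncomputable section

lemma win_sum (η : ℝ × ℝ) (δ T τ : ℝ) (S : Finset (ℕ × ℕ)) (c : ℕ × ℕ → ℕ × ℕ → ℂ)
    (G : ℕ × ℕ → ℕ × ℕ → ℝ → ℂ) (hG : ∀ b b', Continuous (G b b')) :
    wiU η δ T τ (fun t => ∑ b ∈ S, ∑ b' ∈ S, c b b' * G b b' t) =
      ∑ b ∈ S, ∑ b' ∈ S, c b b' * wiU η δ T τ (G b b') := by
  unfold wiU
  have hg : Continuous (fun t => (gw τ (Hu η T) t : ℂ)) :=
    Complex.continuous_ofReal.comp (gw_continuous _ _)
  have hcong : ∀ t, (∑ b ∈ S, ∑ b' ∈ S, c b b' * G b b' t) * (gw τ (Hu η T) t : ℂ) =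
      ∑ b ∈ S, ∑ b' ∈ S, c b b' * (G b b' t * (gw τ (Hu η T) t : ℂ)) := by
    intro t
    rw [sum_mul]
    refine sum_congr rfl fun b _ => ?_
    rw [sum_mul]
    refine sum_congr rfl fun b' _ => ?_
    ring
  simp_rw [hcong]
  rw [intervalIntegral.integral_finsetSum]
  · refine sum_congr rfl fun b _ => ?_
    rw [intervalIntegral.integral_finsetSum]
    · refine sum_congr rfl fun b' _ => ?_
      rw [intervalIntegral.integral_const_mul]
    · intro b' _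
      exact (continuous_const.mul ((hG b b').mul hg)).intervalIntegrable _ _
  · intro b _
    exact (continuous_finsetSum _ fun b' _ =>
      continuous_const.mul ((hG b b').mul hg)).intervalIntegrable _ _

/-- R4 -/
theorem winC (j : ℕ) (η : ℝ × ℝ) (δ : ℝ) (hη : Ok η) (hδ : 0 < δ) (hδ1 : δ ≤ 1) :
    ∀ᶠ T : ℝ in atTop, ∀ τ : ℝ, δ * T ≤ τ → τ ≤ T →
    wiR η δ T τ (fun t => ‖CC j (Yu η T ^ (1 / 2 : ℝ)) t‖ ^ 2) ≤ EE j (Yu η T ^ (1 / 2 : ℝ)) + 1 := by
  filter_upwards [twO (4 * j + 4) η δ hη hδ hδ1, eventually_ge_atTop 1] with T hT hT1 τ hτ1 hτ2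
  have hT0 : 0 < T := by linarith
  have hY1 : 1 ≤ Yu η T := one_le_Yu hη hT1
  have hYT : Yu η T ≤ T := Yu_le hη hT1
  set X : ℝ := Yu η T ^ (1 / 2 : ℝ) with hX
  have hX2 : X ^ 2 = Yu η T := by
    rw [hX, ← Real.rpow_natCast, ← Real.rpow_mul (by linarith)]
    norm_num
  have hX1 : 1 ≤ X := Real.one_le_rpow hY1 (by norm_num)
  have hXT : X ^ 2 ≤ T := by rw [hX2]; exact hYT
  have hcast : ((wiR η δ T τ (fun t => ‖CC j X t‖ ^ 2) : ℝ) : ℂ) =
      ∑ b ∈ SP X, ∑ b' ∈ SP X, ((cc j X b * cc j X b' : ℝ) : ℂ) *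
        wiU η δ T τ (fun t => fr (b.1 * b'.2) (b.2 * b'.1) t) := by
    rw [← win_sum η δ T τ (SP X) (fun b b' => ((cc j X b * cc j X b' : ℝ) : ℂ))
      (fun b b' => fr (b.1 * b'.2) (b.2 * b'.1)) (fun b b' => fr_cont _ _)]
    unfold wiR wiU
    rw [← intervalIntegral.integral_ofReal]
    apply intervalIntegral.integral_congr
    intro t _
    simp only
    rw [Complex.ofReal_mul, normsq j X (by linarith)]
  have hEE : ((EE j X : ℝ) : ℂ) = ∑ b ∈ SP X, ∑ b' ∈ SP X, ((cc j X b * cc j X b' : ℝ) : ℂ) *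
      (if b.1 * b'.2 = b.2 * b'.1 then 1 else 0 : ℂ) := by
    unfold EE
    rw [Complex.ofReal_sum]
    refine sum_congr rfl fun b hb => ?_
    obtain ⟨p1, p2, _, _, p5⟩ := sp_mem hb (by linarith)
    rw [sum_eq_single b]
    · rw [if_pos (mul_comm _ _)]
      push_cast
      ring
    · intro b' hb' hne
      obtain ⟨q1, q2, _, _, q5⟩ := sp_mem hb' (by linarith)
      rw [if_neg, mul_zero]
      intro heq
      exact hne (cop p1 p5 q5 heq).symm
    · intro hb'; exact absurd hb hb'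
  have hdiff : ‖((wiR η δ T τ (fun t => ‖CC j X t‖ ^ 2) - EE j X : ℝ) : ℂ)‖ ≤ 1 := by
    rw [Complex.ofReal_sub, hcast, hEE, ← sum_sub_distrib]
    refine (norm_sum_le _ _).trans ?_
    have hb : ∀ b ∈ SP X, ‖∑ b' ∈ SP X, ((cc j X b * cc j X b' : ℝ) : ℂ) *
        wiU η δ T τ (fun t => fr (b.1 * b'.2) (b.2 * b'.1) t) -
        ∑ b' ∈ SP X, ((cc j X b * cc j X b' : ℝ) : ℂ) *
        (if b.1 * b'.2 = b.2 * b'.1 then 1 else 0 : ℂ)‖ ≤ T * (T ^ (4 * j + 2) / T ^ (4 * j + 4)) := by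
      intro b hb
      rw [← sum_sub_distrib]
      refine (norm_sum_le _ _).trans ?_
      calc _ ≤ ∑ b' ∈ SP X, T ^ (4 * j + 2) / T ^ (4 * j + 4) := by
            refine sum_le_sum fun b' hb' => ?_
            rw [← mul_sub, norm_mul, Complex.norm_real, Real.norm_eq_abs]
            obtain ⟨p1, p2, p3, p4, _⟩ := sp_mem hb (by linarith)
            obtain ⟨q1, q2, q3, q4, _⟩ := sp_mem hb' (by linarith)
            obtain ⟨c1, c2⟩ := cc_le j X T hX1 hXT b hb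
            obtain ⟨d1, d2⟩ := cc_le j X T hX1 hXT b' hb'
            have hab : ((b.1 * b'.2 : ℕ) : ℝ) ≤ X ^ 2 := by
              push_cast
              rw [sq]
              exact mul_le_mul p3 q4 (Nat.cast_nonneg _) (by linarith)
            have hba : ((b.2 * b'.1 : ℕ) : ℝ) ≤ X ^ 2 := by
              push_cast
              rw [sq]
              exact mul_le_mul p4 q3 (Nat.cast_nonneg _) (by linarith)
            have hw := hT τ hτ1 hτ2 (b.1 * b'.2) (b.2 * b'.1) (Nat.mul_pos p1 q2)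
              (hab.trans hXT) (Nat.mul_pos p2 q1) (by rw [← hX2]; exact hba)
            rw [abs_of_nonneg (mul_nonneg c1 d1), div_eq_mul_one_div]
            apply mul_le_mul _ hw (norm_nonneg _) (by positivity)
            calc cc j X b * cc j X b' ≤ T ^ (2 * j + 1) * T ^ (2 * j + 1) :=
                  mul_le_mul c2 d2 d1 (by positivity)
              _ = T ^ (4 * j + 2) := by rw [← pow_add]; congr 1; ring
        _ = (SP X).card * (T ^ (4 * j + 2) / T ^ (4 * j + 4)) := by rw [sum_const, nsmul_eq_mul]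
        _ ≤ _ := mul_le_mul_of_nonneg_right (sp_card X T hX1 hXT) (by positivity)
    calc _ ≤ ∑ b ∈ SP X, T * (T ^ (4 * j + 2) / T ^ (4 * j + 4)) := sum_le_sum hb
      _ = (SP X).card * (T * (T ^ (4 * j + 2) / T ^ (4 * j + 4))) := by
          rw [sum_const, nsmul_eq_mul]
      _ ≤ T * (T * (T ^ (4 * j + 2) / T ^ (4 * j + 4))) :=
          mul_le_mul_of_nonneg_right (sp_card X T hX1 hXT) (by positivity)
      _ = 1 := by
          have : T ^ (4 * j + 4) = T ^ (4 * j + 2) * T * T := by ring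
          rw [this]
          have hp : T ^ (4 * j + 2) ≠ 0 := by positivity
          field_simp
  rw [Complex.norm_real, Real.norm_eq_abs] at hdiff
  have := (abs_le.1 hdiff).2
  linarith

end

end Pool.Agent.H176RZ.D.C

namespace Pool.Agent.H176RZ.D.V

open Finset Filter Topology MeasureTheory Complex
open Pool.Agent.H306R2 hiding fr
open H384MK hiding win_expand T_WinV

noncomputable section

lemma win_expand (j : ℕ) (X : ℝ) (η : ℝ × ℝ) (δ T τ : ℝ) :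
    ((wiR η δ T τ (fun t => ‖H295MK.VV j X t‖ ^ (2 * 2)) : ℝ) : ℂ) =
    ∑ a ∈ Icc 1 ⌊X⌋₊, ∑ b ∈ Icc 1 ⌊X⌋₊, ∑ c ∈ Icc 1 ⌊X⌋₊, ∑ d ∈ Icc 1 ⌊X⌋₊,
      ((vc j a * vc j b * (vc j c * vc j d) : ℝ) : ℂ) *
        wiU η δ T τ (fun t => H295MK.fr (c * d) (a * b) t) := by
  unfold wiR wiU
  rw [← intervalIntegral.integral_ofReal]
  have h1 : ∀ t : ℝ, ((‖H295MK.VV j X t‖ ^ (2 * 2) * gw τ (Hu η T) t : ℝ) : ℂ) =
      ∑ a ∈ Icc 1 ⌊X⌋₊, ∑ b ∈ Icc 1 ⌊X⌋₊, ∑ c ∈ Icc 1 ⌊X⌋₊, ∑ d ∈ Icc 1 ⌊X⌋₊,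
      ((vc j a * vc j b * (vc j c * vc j d) : ℝ) : ℂ) * (H295MK.fr (c * d) (a * b) t *
        (gw τ (Hu η T) t : ℂ)) := by
    intro t
    rw [Complex.ofReal_mul, VV_pow]
    simp only [Finset.sum_mul, mul_assoc]
  simp only [h1]
  have hc : ∀ a b c d : ℕ, Continuous fun t : ℝ =>
      ((vc j a * vc j b * (vc j c * vc j d) : ℝ) : ℂ) * (H295MK.fr (c * d) (a * b) t *
        (gw τ (Hu η T) t : ℂ)) := by
    intro a b c d
    exact continuous_const.mul ((fr_cont _ _).mul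
      (Complex.continuous_ofReal.comp (gw_continuous τ (Hu η T))))
  rw [intervalIntegral.integral_finset_sum fun a _ => by
    apply Continuous.intervalIntegrable
    exact continuous_finsetSum _ fun b _ => continuous_finsetSum _ fun c _ =>
      continuous_finsetSum _ fun d _ => hc a b c d]
  refine sum_congr rfl fun a _ => ?_
  rw [intervalIntegral.integral_finset_sum fun b _ => by
    apply Continuous.intervalIntegrable
    exact continuous_finsetSum _ fun c _ => continuous_finsetSum _ fun d _ => hc a b c d]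
  refine sum_congr rfl fun b _ => ?_
  rw [intervalIntegral.integral_finset_sum fun c _ => by
    apply Continuous.intervalIntegrable
    exact continuous_finsetSum _ fun d _ => hc a b c d]
  refine sum_congr rfl fun c _ => ?_
  rw [intervalIntegral.integral_finset_sum fun d _ => (hc a b c d).intervalIntegrable _ _]
  refine sum_congr rfl fun d _ => ?_
  rw [intervalIntegral.integral_const_mul]

/-- R5 -/
theorem winV (j : ℕ) (η : ℝ × ℝ) (δ : ℝ) (hη : Ok η) (hδ : 0 < δ) (hδ1 : δ ≤ 1) :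
    ∀ᶠ T : ℝ in atTop, ∀ τ : ℝ, δ * T ≤ τ → τ ≤ T →
    wiR η δ T τ (fun t => ‖H295MK.VV j (Yu η T ^ (1 / 2 : ℝ)) t‖ ^ (2 * 2)) ≤
      H295MK.N4 j (Yu η T ^ (1 / 2 : ℝ)) + 1 := by
  filter_upwards [twO (2 * j + 2) η δ hη hδ hδ1, eventually_ge_atTop 1] with T hT hT1
  intro τ hτ1 hτ2
  have hT0 : 0 < T := by linarith
  have hY0 : 0 < Yu η T := Yu_pos hT0
  have hYT : Yu η T ≤ T := Yu_le hη hT1
  set X : ℝ := Yu η T ^ (1 / 2 : ℝ) with hX
  have hX0 : 0 ≤ X := Real.rpow_nonneg hY0.le _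
  have hX2 : X * X = Yu η T := by
    rw [hX, ← Real.rpow_add hY0]
    norm_num
  have hN : (⌊X⌋₊ : ℝ) ≤ X := Nat.floor_le hX0
  have hmem : ∀ n ∈ Icc 1 ⌊X⌋₊, (1 : ℕ) ≤ n ∧ (n : ℝ) ≤ X := by
    intro n hn
    rw [mem_Icc] at hn
    exact ⟨hn.1, (by exact_mod_cast hn.2 : (n : ℝ) ≤ ⌊X⌋₊).trans hN⟩
  have hab : ∀ a ∈ Icc 1 ⌊X⌋₊, ∀ b ∈ Icc 1 ⌊X⌋₊, (1 : ℕ) ≤ a * b ∧ ((a * b : ℕ) : ℝ) ≤ Yu η T := by
    intro a ha b hb
    obtain ⟨ha1, ha2⟩ := hmem a ha
    obtain ⟨hb1, hb2⟩ := hmem b hb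
    refine ⟨Nat.mul_pos ha1 hb1, ?_⟩
    push_cast
    rw [← hX2]
    exact mul_le_mul ha2 hb2 (Nat.cast_nonneg b) hX0
  have key : ‖((wiR η δ T τ (fun t => ‖H295MK.VV j X t‖ ^ (2 * 2)) -
      H295MK.N4 j X : ℝ) : ℂ)‖ ≤ 1 := by
    rw [Complex.ofReal_sub, win_expand, N4_eq]
    have e1 : ((∑ a ∈ Icc 1 ⌊X⌋₊, ∑ b ∈ Icc 1 ⌊X⌋₊, ∑ c ∈ Icc 1 ⌊X⌋₊, ∑ d ∈ Icc 1 ⌊X⌋₊,
        vc j a * vc j b * (vc j c * vc j d) * (if c * d = a * b then 1 else 0) : ℝ) : ℂ) =
        ∑ a ∈ Icc 1 ⌊X⌋₊, ∑ b ∈ Icc 1 ⌊X⌋₊, ∑ c ∈ Icc 1 ⌊X⌋₊, ∑ d ∈ Icc 1 ⌊X⌋₊,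
        ((vc j a * vc j b * (vc j c * vc j d) : ℝ) : ℂ) * (if c * d = a * b then 1 else 0) := by
      rw [Complex.ofReal_sum]
      refine sum_congr rfl fun a _ => ?_
      rw [Complex.ofReal_sum]
      refine sum_congr rfl fun b _ => ?_
      rw [Complex.ofReal_sum]
      refine sum_congr rfl fun c _ => ?_
      rw [Complex.ofReal_sum]
      refine sum_congr rfl fun d _ => ?_
      rw [Complex.ofReal_mul]
      congr 1
      split_ifs <;> simp
    rw [e1, ← Finset.sum_sub_distrib]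
    have hbd : ∀ a ∈ Icc 1 ⌊X⌋₊, ∀ b ∈ Icc 1 ⌊X⌋₊, ∀ c ∈ Icc 1 ⌊X⌋₊, ∀ d ∈ Icc 1 ⌊X⌋₊,
        ‖((vc j a * vc j b * (vc j c * vc j d) : ℝ) : ℂ) *
          wiU η δ T τ (fun t => H295MK.fr (c * d) (a * b) t) -
          ((vc j a * vc j b * (vc j c * vc j d) : ℝ) : ℂ) * (if c * d = a * b then 1 else 0)‖ ≤
        1 / T ^ 2 := by
      intro a ha b hb c hc d hd
      have h1 := hT τ hτ1 hτ2 (c * d) (a * b) (hab c hc d hd).1
        ((hab c hc d hd).2.trans hYT) (hab a ha b hb).1 (hab a ha b hb).2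
      rw [← mul_sub, norm_mul]
      have h2 : ‖((vc j a * vc j b * (vc j c * vc j d) : ℝ) : ℂ)‖ ≤ T ^ (2 * j) := by
        rw [Complex.norm_real, Real.norm_of_nonneg (by
          have := vc_nonneg j
          have h1 := this a
          have h2 := this b
          have h3 := this c
          have h4 := this d
          positivity)]
        have hab' : vc j a * vc j b ≤ T ^ j := by
          calc vc j a * vc j b ≤ (a : ℝ) ^ j * (b : ℝ) ^ j :=
                mul_le_mul (vc_le j a (hmem a ha).1) (vc_le j b (hmem b hb).1) (vc_nonneg j b)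
                  (by positivity)
            _ = ((a * b : ℕ) : ℝ) ^ j := by push_cast; rw [mul_pow]
            _ ≤ T ^ j := pow_le_pow_left₀ (Nat.cast_nonneg _) ((hab a ha b hb).2.trans hYT) j
        have hcd' : vc j c * vc j d ≤ T ^ j := by
          calc vc j c * vc j d ≤ (c : ℝ) ^ j * (d : ℝ) ^ j :=
                mul_le_mul (vc_le j c (hmem c hc).1) (vc_le j d (hmem d hd).1) (vc_nonneg j d)
                  (by positivity)
            _ = ((c * d : ℕ) : ℝ) ^ j := by push_cast; rw [mul_pow]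
            _ ≤ T ^ j := pow_le_pow_left₀ (Nat.cast_nonneg _) ((hab c hc d hd).2.trans hYT) j
        calc vc j a * vc j b * (vc j c * vc j d) ≤ T ^ j * T ^ j :=
              mul_le_mul hab' hcd' (mul_nonneg (vc_nonneg j c) (vc_nonneg j d)) (by positivity)
          _ = T ^ (2 * j) := by ring
      calc _ ≤ T ^ (2 * j) * (1 / T ^ (2 * j + 2)) :=
            mul_le_mul h2 h1 (norm_nonneg _) (by positivity)
        _ = 1 / T ^ 2 := by
            rw [pow_add]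
            field_simp
    have hcard : ((Icc 1 ⌊X⌋₊).card : ℝ) ≤ X := by
      rw [Nat.card_Icc, Nat.add_sub_cancel]
      exact hN
    have hstep : ∀ (F : ℕ → ℂ) (M : ℝ), 0 ≤ M → (∀ a ∈ Icc 1 ⌊X⌋₊, ‖F a‖ ≤ M) →
        ‖∑ a ∈ Icc 1 ⌊X⌋₊, F a‖ ≤ X * M := by
      intro F M hM hF
      calc ‖∑ a ∈ Icc 1 ⌊X⌋₊, F a‖ ≤ ∑ a ∈ Icc 1 ⌊X⌋₊, M := norm_sum_le_of_le _ hF
        _ = (Icc 1 ⌊X⌋₊).card * M := by rw [sum_const, nsmul_eq_mul]
        _ ≤ X * M := mul_le_mul_of_nonneg_right hcard hM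
    have hfin : X * (X * (X * (X * (1 / T ^ 2)))) ≤ 1 := by
      have h1 : X * (X * (X * (X * (1 / T ^ 2)))) = (X * X) ^ 2 / T ^ 2 := by ring
      rw [h1, hX2, div_le_one (by positivity)]
      exact pow_le_pow_left₀ hY0.le hYT 2
    refine le_trans ?_ hfin
    apply hstep _ _ (by positivity)
    intro a ha
    rw [← Finset.sum_sub_distrib]
    apply hstep _ _ (by positivity)
    intro b hb
    rw [← Finset.sum_sub_distrib]
    apply hstep _ _ (by positivity)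
    intro c hc
    rw [← Finset.sum_sub_distrib]
    apply hstep _ _ (by positivity)
    intro d hd
    exact hbd a ha b hb c hc d hd
  rw [Complex.norm_real, Real.norm_eq_abs] at key
  have := (abs_le.1 key).2
  linarith

end

end Pool.Agent.H176RZ.D.V
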