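import Pool.Agent.H176RZ.DecB

set_option autoImplicit false

/-!
# Even moments of zeta on `[T, T + H]`, `H ≥ T^θ`, fixed parameters
-/

namespace Pool.Agent.H176RZ.D

open Finset Filter Topology MeasureTheory Complex
open Pool.Agent.H306R2 hiding fr
open H295MK H400MK

noncomputable section

theorem tail_small (C : ℝ) (A : ℕ) (x y : ℝ) (hx : 0 < x) (hy : 0 < y) :
    ∀ᶠ S : ℝ in atTop, C * (1 + S) ^ A * Real.exp (-(x ^ 2 * S ^ y)) * S ≤ 1 / 2 := by
  have h1 := tendsto_rpow_mul_exp_neg_mul_atTop_nhds_zero (((A : ℝ) + 1) / y) (x ^ 2)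
    (by positivity)
  have h2 := h1.comp (tendsto_rpow_atTop hy)
  have h3 := (h2.const_mul ((|C| + 1) * 2 ^ A)).eventually
    (Iio_mem_nhds (by norm_num : (|C| + 1) * 2 ^ A * 0 < (1 / 2 : ℝ)))
  filter_upwards [h3, eventually_ge_atTop 1] with S hS hS1
  have hS0 : 0 < S := by linarith
  refine le_trans ?_ (le_of_lt hS)
  simp only [Function.comp]
  rw [← Real.rpow_mul hS0.le, mul_div_cancel₀ _ hy.ne', Real.rpow_add hS0, Real.rpow_natCast,
    Real.rpow_one, neg_mul]
  have e1 : C * (1 + S) ^ A ≤ (|C| + 1) * 2 ^ A * S ^ A := by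
    have h4 : (1 + S) ^ A ≤ (2 * S) ^ A := pow_le_pow_left₀ (by linarith) (by linarith) A
    rw [mul_pow] at h4
    have h5 : C ≤ |C| + 1 := by have := le_abs_self C; linarith
    calc C * (1 + S) ^ A ≤ (|C| + 1) * (1 + S) ^ A :=
          mul_le_mul_of_nonneg_right h5 (by positivity)
      _ ≤ (|C| + 1) * (2 ^ A * S ^ A) := mul_le_mul_of_nonneg_left h4 (by positivity)
      _ = _ := by ring
  have hE : 0 < Real.exp (-(x ^ 2 * S ^ y)) := Real.exp_pos _
  calc C * (1 + S) ^ A * Real.exp (-(x ^ 2 * S ^ y)) * S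
      ≤ (|C| + 1) * 2 ^ A * S ^ A * Real.exp (-(x ^ 2 * S ^ y)) * S := by gcongr
    _ = _ := by ring

theorem gauss_short (η : ℝ × ℝ) (hη : Ok η) (f : ℝ → ℝ) (hf : Continuous f) (hf0 : ∀ t, 0 ≤ f t)
    (C : ℝ) (A : ℕ) (hA : ∀ t, 0 ≤ t → f t ≤ C * (1 + t) ^ A) (x : ℝ) (hx : 0 < x)
    (hx1 : x < 1 / 4) :
    ∀ᶠ S : ℝ in atTop, ∀ J : ℝ, 1 ≤ J →
      (∀ τ ∈ Set.Icc (x * S) ((1 - x) * S),
        J ≤ ∫ t in (τ - x / 2 * S)..(τ + x / 2 * S), f t * gw τ (Hu η S) t) →
      ∀ H : ℝ, S ^ (η.1 + η.2) ≤ H → H ≤ S / 4 →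
        (1 - 2 * x) * H * (J - 1) ≤ ∫ t in (S / 4)..(S / 4 + H), f t := by
  have hC : 0 ≤ C := by
    have := hA 0 le_rfl
    simp only [add_zero, one_pow, mul_one] at this
    exact (hf0 0).trans this
  filter_upwards [tail_small C A x (2 * η.2) hx (by have := hη.h1; linarith), eventually_ge_atTop 1] with S hS hS1 J hJ hwin H hH1 hH2
  have hS0 : 0 < S := by linarith
  have hH0 : 0 < H := lt_of_lt_of_le (Real.rpow_pos_of_pos hS0 _) hH1
  set W := Hu η S with hW
  have hW1 : 1 ≤ W := by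
    rw [hW]
    exact one_le_Hu hη hS1
  have hW0 : 0 < W := by linarith
  set R := x * H with hR
  have hR0 : 0 < R := by positivity
  have hRS : R ≤ x / 2 * S := by rw [hR]; nlinarith
  -- Gaussian tail
  have hexp : x ^ 2 * S ^ (2 * η.2) ≤ R ^ 2 / W ^ 2 := by
    rw [le_div_iff₀ (by positivity), hR, mul_pow]
    rw [mul_assoc]
    apply mul_le_mul_of_nonneg_left _ (by positivity)
    have e1 : S ^ (2 * η.2) * W ^ 2 = (S ^ (η.1 + η.2)) ^ 2 := by
      rw [hW]; unfold Hu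
      rw [← Real.rpow_natCast, ← Real.rpow_natCast, ← Real.rpow_mul hS0.le, ← Real.rpow_mul hS0.le,
        ← Real.rpow_add hS0]
      congr 1
      push_cast
      ring
    rw [e1]
    exact pow_le_pow_left₀ (by positivity) hH1 2
  have hpi : 1 ≤ Real.sqrt Real.pi := by
    rw [Real.one_le_sqrt]
    linarith [Real.pi_gt_three]
  have hgw : ∀ τ t : ℝ, R ≤ |t - τ| → gw τ W t ≤ Real.exp (-(x ^ 2 * S ^ (2 * η.2))) := by
    intro τ t h
    unfold gw
    have h1 : Real.exp (-((t - τ) ^ 2 / W ^ 2)) ≤ Real.exp (-(x ^ 2 * S ^ (2 * η.2))) := by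
      apply Real.exp_le_exp.2
      have h2 : R ^ 2 ≤ (t - τ) ^ 2 := by
        rw [← sq_abs (t - τ)]
        exact pow_le_pow_left₀ hR0.le h 2
      have h3 : R ^ 2 / W ^ 2 ≤ (t - τ) ^ 2 / W ^ 2 := by gcongr
      linarith
    have h2 : 1 ≤ W * Real.sqrt Real.pi := by nlinarith
    rw [div_le_iff₀ (by linarith)]
    have h3 : 0 < Real.exp (-(x ^ 2 * S ^ (2 * η.2))) := Real.exp_pos _
    nlinarith
  set K := C * (1 + S) ^ A * Real.exp (-(x ^ 2 * S ^ (2 * η.2))) with hK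
  have hK0 : 0 ≤ K := by positivity
  have htail : ∀ τ a b : ℝ, 0 ≤ a → a ≤ b → b ≤ S → (∀ t ∈ Set.Icc a b, R ≤ |t - τ|) →
      b - a ≤ S → ∫ t in a..b, f t * gw τ W t ≤ 1 / 2 := by
    intro τ a b ha hab hb hd hlen
    have h1 : ‖∫ t in a..b, f t * gw τ W t‖ ≤ K * |b - a| := by
      apply intervalIntegral.norm_integral_le_of_norm_le_const
      intro t ht
      rw [Set.uIoc_of_le hab] at ht
      have ht0 : 0 ≤ t := ha.trans ht.1.le
      have hg0 : 0 ≤ gw τ W t := gw_nonneg _ _ _ hW0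
      rw [Real.norm_of_nonneg (mul_nonneg (hf0 t) hg0)]
      have h2 : f t ≤ C * (1 + S) ^ A := by
        refine (hA t ht0).trans ?_
        apply mul_le_mul_of_nonneg_left _ hC
        exact pow_le_pow_left₀ (by linarith) (by linarith [ht.2]) A
      exact mul_le_mul h2 (hgw τ t (hd t ⟨ht.1.le, ht.2⟩)) hg0 (by positivity)
    rw [abs_of_nonneg (by linarith)] at h1
    have h3 := (le_abs_self _).trans h1
    have h4 : K * (b - a) ≤ K * S := mul_le_mul_of_nonneg_left hlen hK0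
    linarith
  have hint : ∀ τ a b : ℝ, IntervalIntegrable (fun t => f t * gw τ W t) volume a b := fun τ a b =>
    (hf.mul (gw_continuous τ W)).intervalIntegrable a b
  have hcore : ∀ τ ∈ Set.Icc (S / 4 + R) (S / 4 + H - R),
      J - 1 ≤ ∫ t in (τ - R)..(τ + R), f t * gw τ W t := by
    intro τ hτ
    have hτ1 : S / 4 ≤ τ := by linarith [hτ.1]
    have hτ2 : τ ≤ S / 2 := by linarith [hτ.2]
    have h := hwin τ ⟨by nlinarith, by nlinarith⟩
    have hx8 : x / 2 * S ≤ S / 8 := by nlinarith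
    have e1 : ∫ t in (τ - x / 2 * S)..(τ + x / 2 * S), f t * gw τ W t =
        (∫ t in (τ - x / 2 * S)..(τ - R), f t * gw τ W t) +
        (∫ t in (τ - R)..(τ + R), f t * gw τ W t) +
        (∫ t in (τ + R)..(τ + x / 2 * S), f t * gw τ W t) := by
      rw [intervalIntegral.integral_add_adjacent_intervals (hint _ _ _) (hint _ _ _),
        intervalIntegral.integral_add_adjacent_intervals (hint _ _ _) (hint _ _ _)]
    rw [e1] at h
    have h1 := htail τ (τ - x / 2 * S) (τ - R) (by linarith) (by linarith) (by linarith)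
      (fun t ht => by rw [abs_of_nonpos (by linarith [ht.2])]; linarith [ht.2]) (by linarith)
    have h2 := htail τ (τ + R) (τ + x / 2 * S) (by linarith) (by linarith) (by linarith)
      (fun t ht => by rw [abs_of_nonneg (by linarith [ht.1])]; linarith [ht.1]) (by linarith)
    linarith
  have hfin := window_sum (fun t => f (S / 4 + t)) (hf.comp (by fun_prop))
    (fun t => hf0 _) (fun τ t => gw τ W t) (by unfold gw; fun_prop)
    (fun τ t => gw_nonneg _ _ _ hW0)
    (by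
      intro t
      have h1 : ∀ τ, gw τ W t = gw t W τ := fun τ => gw_symm _ _ _
      simp only [h1]
      rw [← ofReal_integral_eq_lintegral_ofReal (gw_integrable _ _ hW0)
        (Eventually.of_forall fun τ => gw_nonneg _ _ _ hW0), gw_integral _ _ hW0]
      simp)
    H R (H - R) R (J - 1) (by rw [hR]; nlinarith) hR0.le le_rfl (by linarith) (by linarith)
    (by
      intro τ hτ
      refine (hcore (S / 4 + τ) ⟨by linarith [hτ.1], by linarith [hτ.2]⟩).trans (le_of_eq ?_)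
      have e2 : ∀ t, f (S / 4 + t) * gw τ W t =
          (fun s => f s * gw (S / 4 + τ) W s) (S / 4 + t) := by
        intro t
        simp only [gw]
        rw [show S / 4 + t - (S / 4 + τ) = t - τ by ring]
      simp only [e2]
      rw [intervalIntegral.integral_comp_add_left (fun s => f s * gw (S / 4 + τ) W s) (S / 4)]
      rw [show S / 4 + τ - R = S / 4 + (τ - R) by ring,
        show S / 4 + τ + R = S / 4 + (τ + R) by ring])
  rw [intervalIntegral.integral_comp_add_left (fun s => f s) (S / 4), add_zero] at hfin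
  refine le_trans (le_of_eq ?_) hfin
  rw [hR]; ring

theorem zeta_poly (j : ℕ) : ∀ t : ℝ, 0 ≤ t →
    ‖riemannZeta (1 / 2 + t * Complex.I)‖ ^ (4 * (j : ℝ)) ≤ 24 ^ (4 * j) * (1 + t) ^ (8 * j) := by
  intro t ht
  have h : ‖riemannZeta (1 / 2 + t * Complex.I)‖ ≤ 24 * (1 + t) ^ 2 :=
    Pool.Agent.H306R2.SM.zeta_cl_bound t ht
  rw [show (4 * (j:ℝ)) = ((4 * j : ℕ) : ℝ) by push_cast; ring, Real.rpow_natCast]
  refine (pow_le_pow_left₀ (norm_nonneg _) h _).trans (le_of_eq ?_)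
  rw [mul_pow, ← pow_mul]
  congr 2
  ring

/-- lower bound with fixed parameters, short windows -/
theorem fixedU (h4 : EElow) (h5 : N4up) (η : ℝ × ℝ) (hη : Ok η)
    (j : ℕ) (A K x : ℝ) (hj : 1 ≤ j) (hA : 0 < A)
    (hAV : A < aF (2 * j) * ((1 / 2) ^ (4 * j ^ 2) * volE (j ^ 2)))
    (hKV : aF (2 * j) * ((1 / 2) ^ (4 * j ^ 2) * volN (j ^ 2)) < K) (hx : 0 < x)
    (hx2 : x < 1 / 4) :
    ∀ᶠ S : ℝ in atTop, ∀ H : ℝ, S ^ (η.1 + η.2) ≤ H → H ≤ S / 4 →
      (1 - 2 * x) * H * ((A ^ 2 / K) * ((1 - x) ^ 2 * (η.1 - η.2) ^ (4 * j ^ 2)) *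
          Real.log S ^ (4 * j ^ 2) - 1) ≤
        ∫ t in (S / 4)..(S / 4 + H), ‖riemannZeta (1 / 2 + t * Complex.I)‖ ^ (4 * j) := by
  set m : ℕ := 4 * j ^ 2 with hm
  have hj0 : (0:ℝ) < j := by exact_mod_cast hj
  have hm0 : m ≠ 0 := by rw [hm]; positivity
  obtain ⟨K', hK'1, hK'2⟩ := exists_between hKV
  have hvol : 0 < volN (j ^ 2) := by unfold volN; positivity
  have haF : 0 < aF (2 * (j:ℝ)) := aF_pos (by positivity)
  have hK'0 : 0 < K' := lt_trans (by positivity) hK'1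
  have hK0 : 0 < K := lt_trans hK'0 hK'2
  have hYt : Tendsto (fun T : ℝ => Real.log (Yu η T)) atTop atTop :=
    Yu_tendsto hη
  have hE := hYt.eventually (h4 j A hj hAV)
  have hN := hYt.eventually (h5 j K' hj hK'1)
  have hL1 : ∀ᶠ T : ℝ in atTop, 3 / (x * A) ≤ Real.log (Yu η T) ^ m :=
    ((tendsto_pow_atTop hm0).comp hYt).eventually_ge_atTop _
  have hL2 : ∀ᶠ T : ℝ in atTop, 1 / (K - K') ≤ Real.log (Yu η T) ^ m :=
    ((tendsto_pow_atTop hm0).comp hYt).eventually_ge_atTop _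
  have hx1 : 0 < 1 - x := by linarith
  have hL3 : ∀ᶠ T : ℝ in atTop, 1 / (A ^ 2 / K * (1 - x) ^ 2) ≤ Real.log (Yu η T) ^ m :=
    ((tendsto_pow_atTop hm0).comp hYt).eventually_ge_atTop _
  have hG := gauss_short η hη (fun t => ‖riemannZeta (1 / 2 + t * Complex.I)‖ ^ (4 * (j:ℝ)))
    (zeta_line_continuous.norm.rpow_const fun _ => Or.inr (by positivity)) (fun t => by positivity)
    (24 ^ (4 * j)) (8 * j) (zeta_poly j) x hx hx2
  filter_upwards [N.winN j η x hη hx (by linarith),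
    C.winC j η x hη hx (by linarith),
    V.winV j η x hη hx (by linarith), hE, hN, hL1, hL2, eventually_gt_atTop 1,
    hYt.eventually_gt_atTop 0, hL3, hG] with T hT1 hT2 hT3 hT4 hT5 hT6 hT7 hT8 hT9 hT10 hT11 H hH1 hH2
  have hT0 : 0 < T := by linarith
  have hH0 : 0 < Hu η T := Real.rpow_pos_of_pos hT0 _
  have hY0 : 0 < Yu η T := Real.rpow_pos_of_pos hT0 _
  have hX : Real.exp (1 / 2 * Real.log (Yu η T)) = Yu η T ^ (1 / 2 : ℝ) := by
    rw [Real.rpow_def_of_pos hY0, mul_comm]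
  rw [hX] at hT4 hT5
  set L := Real.log (Yu η T) with hL
  set X := Yu η T ^ (1 / 2 : ℝ) with hXd
  set E := EE j X with hEd
  set Q := N4 j X with hQd
  have hxA : 3 ≤ x * (A * L ^ m) := by
    rw [div_le_iff₀ (by positivity)] at hT6
    linarith
  have hKK : 1 ≤ (K - K') * L ^ m := by
    rw [div_le_iff₀ (by linarith)] at hT7
    linarith
  have hAL : 0 ≤ A * L ^ m := by positivity
  have hAL3 : 3 ≤ A * L ^ m := by nlinarith
  have hE3 : 3 ≤ E := le_trans hAL3 hT4
  have hQ0 : 0 ≤ Q := by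
    rw [hQd]; unfold N4
    refine sum_nonneg fun a _ => sum_nonneg fun b _ => sum_nonneg fun c _ => sum_nonneg fun d _ => ?_
    split_ifs
    · have h1 := dv_nonneg hj0.le a
      have h2 := dv_nonneg hj0.le b
      have h3 := dv_nonneg hj0.le c
      have h4 := dv_nonneg hj0.le d
      positivity
    · exact le_rfl
  have hQ1 : Q + 1 ≤ K * L ^ m := by linarith
  set J := (A * ((1 - x) * L ^ m)) ^ 2 / (K * L ^ m) with hJ
  have hwin : ∀ τ ∈ Set.Icc (x * T) ((1 - x) * T), J ≤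
      ∫ t in (τ - x / 2 * T)..(τ + x / 2 * T), ‖riemannZeta (1 / 2 + t * Complex.I)‖ ^ (4 * (j:ℝ)) *
        gw τ (Hu η T) t := by
    intro τ hτ
    have hτ2 : τ ≤ T := by
      have := hτ.2
      nlinarith
    have h := window_holder_real 1 (fun _ => 2) (fun i => by norm_num) j (4 * (j:ℝ)) hj (by positivity)
      (by simp; field_simp; norm_num)
      (fun t => riemannZeta (cl t)) (CC j X) (fun _ => VV j X)
      (by unfold cl; exact zeta_line_continuous) (CC_continuous _ _) (fun i => VV_continuous _ _)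
      (gw τ (Hu η T)) (gw_continuous _ _) (fun t => gw_nonneg _ _ _ hH0)
      (τ - x / 2 * T) (τ + x / 2 * T) (by nlinarith) (E - 1) (E + 1) (fun _ => Q + 1)
      (by linarith) (by linarith) (fun _ => by linarith)
      (by simpa using hT1 τ hτ.1 hτ2)
      (hT2 τ hτ.1 hτ2)
      (fun i => hT3 τ hτ.1 hτ2)
    refine le_trans ?_ h
    have e1 : 4 * (j:ℝ) / j = 4 := by field_simp
    rw [e1]
    simp only [Finset.univ_unique, Finset.prod_singleton, Nat.cast_ofNat]
    have e2 : (1:ℝ) / (2 * 2) = 1 / 4 := by norm_num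
    rw [e2]
    have := alg_low (E := E) (K0 := Q + 1) (A' := A * ((1 - x) * L ^ m)) (B := K * L ^ m) hE3
      (by have : 0 ≤ 1 - x := by linarith
          positivity) (by nlinarith) (by linarith) hQ1
    exact this
  have hlog : L = (η.1 - η.2) * Real.log T := by
    rw [hL]
    unfold Yu
    rw [Real.log_rpow hT0]
  have hLm : 0 < L ^ m := by positivity
  have eJ : J = A ^ 2 / K * ((1 - x) ^ 2 * L ^ m) := by
    rw [hJ]
    field_simp
  have hJ1 : 1 ≤ J := by
    rw [eJ]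
    rw [div_le_iff₀ (by positivity)] at hT10
    linarith
  have hfin := hT11 J hJ1 hwin H hH1 hH2
  have hconv : (∫ t in (T / 4)..(T / 4 + H), ‖riemannZeta (1 / 2 + t * Complex.I)‖ ^ (4 * (j:ℝ)))
      = ∫ t in (T / 4)..(T / 4 + H), ‖riemannZeta (1 / 2 + t * Complex.I)‖ ^ (4 * j) := by
    refine intervalIntegral.integral_congr fun t _ => ?_
    show ‖riemannZeta (1 / 2 + t * Complex.I)‖ ^ (4 * (j:ℝ)) = _
    rw [show (4 * (j:ℝ)) = ((4 * j : ℕ) : ℝ) by push_cast; ring, Real.rpow_natCast]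
  rw [hconv] at hfin
  refine le_trans (le_of_eq ?_) hfin
  rw [eJ, hlog, mul_pow]
  ring

end

end Pool.Agent.H176RZ.D
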