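import Pool.Agent.H176RZ.DecC

set_option autoImplicit false

/-!
# Even moments of zeta on `[T, T + H]`, `T^θ ≤ H ≤ T`, for every `θ > 0`
-/

namespace Pool.Agent.H176RZ.D

open Finset Filter Topology MeasureTheory Complex
open Pool.Agent.H306R2 hiding fr
open H295MK H400MK

noncomputable section

theorem local_scale (h4 : EElow) (h5 : N4up) (j : ℕ) (hj : 1 ≤ j) (c : ℝ)
    (hc : c < aF (2 * j) / ((4 * j ^ 2).factorial : ℝ) *
      ((1 / 2) ^ (4 * j ^ 2) * ((4 * j ^ 2).choose (j ^ 2) : ℝ) ^ 2)) (hc0 : 0 < c) :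
    ∃ ρ : ℝ, 0 < ρ ∧ ρ < 1 ∧ ∀ u : ℝ, 0 < u → u ≤ 1 → ∀ᶠ T : ℝ in atTop, ∀ H : ℝ,
      T ^ u ≤ H → H ≤ T → H ≤ T ^ (u / ρ) →
      c * (H * Real.log H ^ (4 * j ^ 2)) ≤
        ∫ t in T..(T + H), ‖riemannZeta (1 / 2 + t * Complex.I)‖ ^ (4 * j) := by
  have hconst := Pool.Agent.H640R2.MK.const_holds j hj
  have hj0 : (0:ℝ) < j := by exact_mod_cast hj
  have haF : 0 < aF (2 * (j : ℝ)) := aF_pos (by positivity)
  have hm0 : 4 * j ^ 2 ≠ 0 := by positivity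
  rw [← hconst] at hc
  set m : ℕ := 4 * j ^ 2 with hm
  set E0 := aF (2 * (j : ℝ)) * ((1 / 2) ^ m * volE (j ^ 2)) with hE
  set N0 := aF (2 * (j : ℝ)) * ((1 / 2) ^ m * volN (j ^ 2)) with hN
  have hE0 : 0 < E0 := by
    have := Pool.Agent.H965R2.MK_F3.volE_pos (j ^ 2)
    positivity
  have hN0 : 0 < N0 := by
    have := Pool.Agent.H965R2.MK_F3.volN_pos (j ^ 2)
    positivity
  set f : ℝ → ℝ := fun x => (((1 - x) * E0) ^ 2 / ((1 + x) * N0)) *
    (1 - x) ^ 2 * (1 - 2 * x) ^ (2 * m) * (1 - 2 * x) with hf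
  have hf0 : f 0 = E0 ^ 2 / N0 := by
    rw [hf]
    simp
  have hlim : Tendsto f (𝓝[>] 0) (𝓝 (f 0)) := by
    have h3 : ContinuousAt f 0 := by
      rw [hf]
      refine ContinuousAt.mul (ContinuousAt.mul (ContinuousAt.mul
        (ContinuousAt.div (by fun_prop) (by fun_prop) ?_) (by fun_prop)) (by fun_prop)) (by fun_prop)
      simp only [add_zero, one_mul]
      exact hN0.ne'
    exact h3.tendsto.mono_left nhdsWithin_le_nhds
  rw [hf0] at hlim
  obtain ⟨x, hxc, hx0, hx4⟩ := ((hlim.eventually_const_lt hc).and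
    (Ioo_mem_nhdsGT (by norm_num : (0:ℝ) < 1 / 4))).exists
  set ρ : ℝ := 1 - 2 * x with hρ
  have hρ0 : 0 < ρ := by rw [hρ]; linarith
  have hρ1 : ρ < 1 := by rw [hρ]; linarith
  refine ⟨ρ, hρ0, hρ1, fun u hu0 hu1 => ?_⟩
  set ε : ℝ := x * u / 2 with hε
  have hε0 : 0 < ε := by positivity
  have hok : Ok (u - 2 * ε, ε) := by
    refine ⟨hε0, ?_, ?_⟩
    · show ε < u - 2 * ε
      rw [hε]; nlinarith
    · show u - 2 * ε + ε ≤ 1
      linarith
  have hmain := fixedU h4 h5 (u - 2 * ε, ε) hok j ((1 - x) * E0) ((1 + x) * N0) x hj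
    (mul_pos (by linarith) hE0)
    (by
      rw [← hm, ← hE]
      nlinarith)
    (by
      rw [← hm, ← hN]
      nlinarith) hx0 hx4
  simp only at hmain
  rw [← hm] at hmain
  have h4T : Tendsto (fun T : ℝ => 4 * T) atTop atTop :=
    tendsto_id.const_mul_atTop (by norm_num)
  have hlg : ∀ᶠ T : ℝ in atTop, 1 / (f x - c) ≤ (u * Real.log T) ^ m :=
    ((tendsto_pow_atTop hm0).comp
      (Real.tendsto_log_atTop.const_mul_atTop hu0)).eventually_ge_atTop _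
  have hrp : ∀ᶠ T : ℝ in atTop, (4:ℝ) ≤ T ^ ε :=
    (tendsto_rpow_atTop hε0).eventually_ge_atTop _
  filter_upwards [h4T.eventually hmain, eventually_gt_atTop 1, hlg, hrp] with
    T hT hT1 hT2 hT3 H hH1 hH2 hH3
  have hT0 : 0 < T := by linarith
  have hH0 : 0 < H := lt_of_lt_of_le (Real.rpow_pos_of_pos hT0 _) hH1
  have hpw : (4 * T) ^ (u - 2 * ε + ε) ≤ H := by
    refine le_trans ?_ hH1
    rw [Real.mul_rpow (by norm_num) hT0.le]
    have e1 : T ^ u = T ^ ε * T ^ (u - 2 * ε + ε) := by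
      rw [← Real.rpow_add hT0]; congr 1; ring
    rw [e1]
    apply mul_le_mul_of_nonneg_right _ (by positivity)
    refine le_trans ?_ hT3
    calc (4:ℝ) ^ (u - 2 * ε + ε) ≤ 4 ^ (1:ℝ) :=
          Real.rpow_le_rpow_of_exponent_le (by norm_num) (by linarith)
      _ = 4 := Real.rpow_one _
  have h := hT H hpw (by linarith)
  rw [show 4 * T / 4 = T by ring] at h
  refine le_trans ?_ h
  have hlog : 0 ≤ Real.log T := Real.log_nonneg hT1.le
  have hlog4 : Real.log T ≤ Real.log (4 * T) := Real.log_le_log hT0 (by linarith)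
  have hfc : 0 < f x - c := by linarith
  rw [div_le_iff₀ hfc] at hT2
  have hHone : 1 ≤ H := (Real.one_le_rpow hT1.le hu0.le).trans hH1
  have hlogH : 0 ≤ Real.log H := Real.log_nonneg hHone
  have hlogH2 : Real.log H ≤ u / ρ * Real.log T := by
    have := Real.log_le_log hH0 hH3
    rwa [Real.log_rpow hT0] at this
  set G : ℝ := (((1 - x) * E0) ^ 2 / ((1 + x) * N0)) * (1 - x) ^ 2 with hG
  have hfx : f x = G * ρ ^ (2 * m) * ρ := by rw [hf]
  have hG0 : 0 ≤ G := by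
    rw [hG]
    have h1 : 0 ≤ 1 - x := by linarith
    positivity
  set a : ℝ := Real.log H ^ m with ha
  set b : ℝ := (u * Real.log T) ^ m with hb
  have hb0 : 0 ≤ b := by positivity
  have hρm : 0 < ρ ^ m := by positivity
  have hρm1 : ρ ^ m ≤ 1 := pow_le_one₀ hρ0.le hρ1.le
  have hab : a * ρ ^ m ≤ b := by
    rw [ha, hb, ← mul_pow]
    apply pow_le_pow_left₀ (by positivity)
    calc Real.log H * ρ ≤ (u / ρ * Real.log T) * ρ := mul_le_mul_of_nonneg_right hlogH2 hρ0.le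
      _ = u * Real.log T := by field_simp
  have hGb : G * (ρ ^ m * b) ≤
      ((1 - x) * E0) ^ 2 / ((1 + x) * N0) * ((1 - x) ^ 2 * (u - 2 * ε - ε) ^ m) *
        Real.log (4 * T) ^ m := by
    have e1 : ((1 - x) * E0) ^ 2 / ((1 + x) * N0) * ((1 - x) ^ 2 * (u - 2 * ε - ε) ^ m) *
        Real.log (4 * T) ^ m = G * ((u - 2 * ε - ε) * Real.log (4 * T)) ^ m := by
      rw [hG, mul_pow (u - 2 * ε - ε) (Real.log (4 * T)) m]; ring
    rw [e1]
    apply mul_le_mul_of_nonneg_left _ hG0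
    rw [hb, ← mul_pow]
    apply pow_le_pow_left₀ (by positivity)
    have e2 : ρ * u ≤ u - 2 * ε - ε := by
      rw [hρ, hε]; nlinarith
    calc ρ * (u * Real.log T) = (ρ * u) * Real.log T := by ring
      _ ≤ (u - 2 * ε - ε) * Real.log (4 * T) := mul_le_mul e2 hlog4 hlog (by nlinarith)
  have key : c * a ≤ ρ * (((1 - x) * E0) ^ 2 / ((1 + x) * N0) *
      ((1 - x) ^ 2 * (u - 2 * ε - ε) ^ m) * Real.log (4 * T) ^ m - 1) := by
    have h6 : c * a ≤ ρ * (G * (ρ ^ m * b) - 1) := by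
      have h7 : (c * a) * ρ ^ m ≤ (ρ * (G * (ρ ^ m * b) - 1)) * ρ ^ m := by
        have h8 : (c * a) * ρ ^ m ≤ c * b := by
          calc (c * a) * ρ ^ m = c * (a * ρ ^ m) := by ring
            _ ≤ c * b := mul_le_mul_of_nonneg_left hab hc0.le
        have h9 : (ρ * (G * (ρ ^ m * b) - 1)) * ρ ^ m = f x * b - ρ * ρ ^ m := by
          have h11 : ρ ^ (2 * m) = ρ ^ m * ρ ^ m := by rw [two_mul, pow_add]
          rw [hfx, h11]; ring
        rw [h9]
        have h10 : ρ * ρ ^ m ≤ 1 := by nlinarith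
        nlinarith
      exact le_of_mul_le_mul_right h7 hρm
    refine h6.trans ?_
    apply mul_le_mul_of_nonneg_left _ hρ0.le
    linarith
  calc c * (H * a) = H * (c * a) := by ring
    _ ≤ H * (ρ * (((1 - x) * E0) ^ 2 / ((1 + x) * N0) *
      ((1 - x) ^ 2 * (u - 2 * ε - ε) ^ m) * Real.log (4 * T) ^ m - 1)) :=
        mul_le_mul_of_nonneg_left key hH0.le
    _ = _ := by rw [hρ]; ring

/-- even moments on all intervals of length `T^θ ≤ H ≤ T` -/
theorem evenAll (j : ℕ) (hj : 1 ≤ j) (c : ℝ)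
    (hc : c < aF (2 * j) / ((4 * j ^ 2).factorial : ℝ) *
      ((1 / 2) ^ (4 * j ^ 2) * ((4 * j ^ 2).choose (j ^ 2) : ℝ) ^ 2))
    (θ : ℝ) (hθ : 0 < θ) :
    ∀ᶠ T : ℝ in atTop, ∀ H : ℝ, T ^ θ ≤ H → H ≤ T →
      c * (H * Real.log H ^ (4 * j ^ 2)) ≤
        ∫ t in T..(T + H), ‖riemannZeta (1 / 2 + t * Complex.I)‖ ^ (4 * j) := by
  have hA4 : Kar4 := H55MK.kar4 Pool.Agent.H835R2.MK_A1.main Pool.Agent.H143R2.MK_A2.lw4
    Pool.Agent.H757R2.MKA3.loc4
  have hS1 : EElow := H388MK.ee_low hA4 H408MKA5.eEsum_done H408MKV1.volE_done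
  have hS2 : N4up := H399R2.MKS2.N4up_proof hA4 Pool.Agent.H885R2.MKA6.A6
    Pool.Agent.H950R2.MK_V2.VolN_ok
  set C := aF (2 * j) / ((4 * j ^ 2).factorial : ℝ) *
      ((1 / 2) ^ (4 * j ^ 2) * ((4 * j ^ 2).choose (j ^ 2) : ℝ) ^ 2) with hC
  have hj0 : (0:ℝ) < j := by exact_mod_cast hj
  have haF : 0 < aF (2 * (j : ℝ)) := aF_pos (by positivity)
  have hC0 : 0 < C := by
    have h1 : 0 < (4 * j ^ 2).choose (j ^ 2) := Nat.choose_pos (by omega)
    have h2 : (0:ℝ) < ((4 * j ^ 2).choose (j ^ 2) : ℝ) := by exact_mod_cast h1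
    positivity
  set c' : ℝ := max c (C / 2) with hc'
  have hc'0 : 0 < c' := lt_of_lt_of_le (by positivity) (le_max_right _ _)
  have hc'C : c' < C := max_lt hc (by linarith)
  obtain ⟨ρ, hρ0, hρ1, hloc⟩ := local_scale hS1 hS2 j hj c' hc'C hc'0
  obtain ⟨N, hN⟩ := exists_pow_lt_of_lt_one hθ hρ1
  have hev : ∀ᶠ T : ℝ in atTop, ∀ i ∈ Finset.range N, θ / ρ ^ i ≤ 1 → ∀ H : ℝ,
      T ^ (θ / ρ ^ i) ≤ H → H ≤ T → H ≤ T ^ (θ / ρ ^ i / ρ) →
      c' * (H * Real.log H ^ (4 * j ^ 2)) ≤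
        ∫ t in T..(T + H), ‖riemannZeta (1 / 2 + t * Complex.I)‖ ^ (4 * j) := by
    rw [Filter.eventually_all_finset]
    intro i _
    by_cases h : θ / ρ ^ i ≤ 1
    · filter_upwards [hloc (θ / ρ ^ i) (by positivity) h] with T hT _ using hT
    · exact Eventually.of_forall fun T h' => absurd h' h
  filter_upwards [hev, eventually_gt_atTop 1] with T hT hT1 H hH1 hH2
  have hT0 : 0 < T := by linarith
  have hHone : 1 ≤ H := (Real.one_le_rpow hT1.le hθ.le).trans hH1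
  have hlogH : 0 ≤ Real.log H := Real.log_nonneg hHone
  have hpN : H < T ^ (θ / ρ ^ N) := by
    refine lt_of_le_of_lt hH2 ?_
    have h1 : 1 < θ / ρ ^ N := by rwa [one_lt_div (by positivity)]
    calc T = T ^ (1:ℝ) := (Real.rpow_one T).symm
      _ < T ^ (θ / ρ ^ N) := Real.rpow_lt_rpow_of_exponent_lt hT1 h1
  classical
  have hex : ∃ n : ℕ, H < T ^ (θ / ρ ^ n) := ⟨N, hpN⟩
  set n := Nat.find hex with hn
  have hn1 : H < T ^ (θ / ρ ^ n) := Nat.find_spec hex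
  have hnN : n ≤ N := Nat.find_min' hex hpN
  have hn0 : n ≠ 0 := by
    intro h0
    rw [h0, pow_zero, div_one] at hn1
    linarith
  obtain ⟨i, hi⟩ := Nat.exists_eq_succ_of_ne_zero hn0
  have hi1 : ¬ H < T ^ (θ / ρ ^ i) := Nat.find_min hex (by rw [← hn, hi]; exact Nat.lt_succ_self i)
  have hi2 : T ^ (θ / ρ ^ i) ≤ H := not_lt.1 hi1
  have hi3 : θ / ρ ^ i ≤ 1 := by
    by_contra hcon
    have h1 : T ^ (1:ℝ) < T ^ (θ / ρ ^ i) :=
      Real.rpow_lt_rpow_of_exponent_lt hT1 (not_le.1 hcon)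
    rw [Real.rpow_one] at h1
    linarith
  have hi4 : H ≤ T ^ (θ / ρ ^ i / ρ) := by
    rw [hi, Nat.succ_eq_add_one, pow_succ, ← div_div] at hn1
    exact hn1.le
  refine le_trans ?_ (hT i (Finset.mem_range.2 (by omega)) hi3 H hi2 hH2 hi4)
  exact mul_le_mul_of_nonneg_right (le_max_left _ _) (by positivity)

end

end Pool.Agent.H176RZ.D
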