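import Pool.Agent.H176RZ.DecC

set_option autoImplicit false

/-!
# Windows of width `T^θ`: the general Hölder bound for real moments (after `H306R2`)
-/

namespace Pool.Agent.H176RZ.D.R

open Finset Filter Topology MeasureTheory Pool.Agent.H306R2 Pool.Agent.H176RZ.D

noncomputable section

theorem core_ev1 (j c0 : ℕ) (η : ℝ × ℝ) (δ : ℝ) (hη : Ok η) (hδ : 0 < δ) (hδ1 : δ ≤ 1) :
    ∀ᶠ T : ℝ in atTop, ∀ τ : ℝ, δ * T ≤ τ → τ ≤ T → ∀ A G : ArithmeticFunction ℝ,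
      PB A c0 → (∀ n : ℕ, T < n → A n = 0) → PB G c0 →
      ‖(∫ t in (τ - δ / 2 * T)..(τ + δ / 2 * T), (riemannZeta (1 / 2 + t * Complex.I) ^ j *
          Dp A T (1 / 2 + t * Complex.I)) *
        (starRingEnd ℂ) (Dp G (Yu η T) (1 / 2 + t * Complex.I)) * (gw τ (Hu η T) t : ℂ)) -
      ((∑ m ∈ Icc 1 ⌊Yu η T⌋₊, (zR ^ j * A) m * G m / m : ℝ) : ℂ)‖ ≤ 1 := by
  have h := core_evB 0 j c0 η δ hη hδ hδ1
  simpa only [pow_zero, div_one] using h

/-- the coefficient sum for the mean value of the `2q`-th power -/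
lemma K_sum (e : ℝ) (he : 0 < e) (q : ℕ) (hq : 1 ≤ q) (β : ℝ) (hβ : 0 < β) (C : ℝ)
    (hC : aF (q * e) * (β ^ ((q * e) * e) / Real.Gamma ((q * e) * e + 1)) ^ q < C) (η : ℝ × ℝ)
    (hη : Ok η) :
    ∀ᶠ T : ℝ in atTop, ∑ m ∈ Icc 1 ⌊Yu η T⌋₊, (tr (dA e) (Yu η T ^ β) ^ q) m *
      (tr (dA e) (Yu η T ^ β) ^ q) m / m ≤ C * Real.log (Yu η T) ^ ((q * e) ^ 2) := by
  have hκ : ∑ _i : Fin q, e = q * e := by rw [sum_const, card_univ, Fintype.card_fin, nsmul_eq_mul]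
  have hκ0 : 0 < (q:ℝ) * e := by positivity
  have hU := wt_upper (fun _ : Fin q => e) (fun _ => he) hq (fun _ => β) (fun _ => hβ) C (by
    rw [hκ, prod_const, card_univ, Fintype.card_fin]
    exact hC)
  rw [hκ] at hU
  have hU2 := (Yu_tendsto hη).eventually hU
  filter_upwards [hU2, (Yu_tendsto hη).eventually_gt_atTop 0, eventually_gt_atTop 0]
    with T hT hL hT0
  set Y := Yu η T with hYdef
  have hY0 : 0 < Y := Yu_pos hT0
  have hY1 : 1 < Y := by
    by_contra h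
    have := Real.log_nonpos hY0.le (not_lt.mp h)
    linarith
  set g : Fin q → ArithmeticFunction ℝ := fun _ => tr (dA e) (Y ^ β) with hg
  have hgn : ∀ i n, 0 ≤ g i n := fun i n => tr_nonneg (fun m => dv_nonneg he.le m) _ n
  have hs := Fb_hasSum hκ0.le Y g hgn
  have h1 := hT (Fb ((q:ℝ) * e) Y g) hs.summable ?_ ?_
  · rw [hs.tsum_eq] at h1
    refine le_trans (sum_le_sum fun m _ => ?_) h1
    rw [hg, ← pow_eq_prod_af]
    have e1 := tr_pow_le he.le (Y ^ β) q m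
    have e2 := tr_pow_nonneg he.le (Y ^ β) q m
    gcongr
  · intro b hb
    by_cases hz : ∃ i, b i = 0
    · obtain ⟨i, hi⟩ := hz
      have : Fb ((q:ℝ) * e) Y g b = 0 := by
        have hp : ∏ i, g i (b i) = 0 :=
          prod_eq_zero (mem_univ i) (by rw [hi, ArithmeticFunction.map_zero])
        unfold Fb
        rw [hp, mul_zero]
      rw [this]
      exact wt_nonneg hκ0.le (fun _ => he.le) b
    · push Not at hz
      have hgb : ∀ i, g i (b i) = dv e (b i) := by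
        intro i
        rw [hg, tr_apply, if_pos ((le_rpow_iff_pos hY1 (hz i) β).mpr (hb i)), dA_apply]
      by_cases hY : ((∏ i, b i : ℕ) : ℝ) ≤ Y
      · rw [Fb_eq_wt _ Y (fun _ => e) g b hY hgb]
      · unfold Fb
        rw [if_neg hY, zero_mul]
        exact wt_nonneg hκ0.le (fun _ => he.le) b
  · intro b hb
    push Not at hb
    obtain ⟨i, hi⟩ := hb
    have hz : b i ≠ 0 := by
      intro h
      rw [pos, h] at hi
      simp at hi
      linarith
    have : g i (b i) = 0 := by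
      rw [hg, tr_apply, if_neg]
      intro h
      rw [le_rpow_iff_pos hY1 hz] at h
      exact absurd h (not_le.mpr hi)
    have hp : ∏ i, g i (b i) = 0 := prod_eq_zero (mem_univ i) this
    unfold Fb
    rw [hp, mul_zero]

lemma N_sum {n : ℕ} (j : ℕ) (hj : 1 ≤ j) (e : Fin n → ℝ) (he : ∀ i, 0 < e i) (κ : ℝ)
    (hκ : κ = j + ∑ i, e i) (β : Fin n → ℝ) (hβ : ∀ i, 0 < β i) (hβs : ∑ i, β i ≤ 1)
    (hm0 : 1 ≤ κ * j) (c : ℝ)
    (hc : c < aF κ * ((∏ i : Fin n, (β i) ^ (κ * e i) / Real.Gamma (κ * e i + 1)) *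
      ((1 - ∑ i : Fin n, β i * (κ * e i / (κ * e i + 1))) ^ (κ * j) / Real.Gamma (κ * j + 1))))
    (η : ℝ × ℝ) (hη : Ok η) :
    ∀ᶠ T : ℝ in atTop, c * Real.log (Yu η T) ^ (κ ^ 2) ≤
      ∑ m ∈ Icc 1 ⌊Yu η T⌋₊, (zR ^ j * PA e (fun i => Yu η T ^ β i)) m * dA κ m / m := by
  have hj0 : (0:ℝ) < j := by exact_mod_cast hj
  set e' : Fin (n + 1) → ℝ := Fin.cons (j:ℝ) e with he'
  have hs' : ∑ i, e' i = κ := by
    rw [Fin.sum_univ_succ, he']
    simp only [Fin.cons_zero, Fin.cons_succ]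
    exact hκ.symm
  have hep : ∀ i, 0 < e' i := by
    intro i
    refine Fin.cases ?_ (fun i => ?_) i
    · rw [he', Fin.cons_zero]; exact hj0
    · rw [he', Fin.cons_succ]; exact he i
  have hκ0 : 0 < κ := by
    rw [← hs']
    exact sum_pos (fun i _ => hep i) ⟨0, mem_univ _⟩
  have hLo := wt_lower e' hep β hβ hβs (by rw [hs', he', Fin.cons_zero]; exact hm0) c (by
    rw [hs', he']
    simp only [Fin.cons_zero, Fin.cons_succ]
    exact hc)
  rw [hs'] at hLo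
  filter_upwards [(Yu_tendsto hη).eventually hLo, (Yu_tendsto hη).eventually_gt_atTop 0,
    eventually_gt_atTop 0] with T hT hL hT0
  set Y := Yu η T with hYdef
  have hY0 : 0 < Y := Yu_pos hT0
  have hY1 : 1 < Y := by
    by_contra h
    have := Real.log_nonpos hY0.le (not_lt.mp h)
    linarith
  set g : Fin (n + 1) → ArithmeticFunction ℝ :=
    Fin.cons (dA j) (fun i => tr (dA (e i)) (Y ^ β i)) with hg
  have hg0 : g 0 = dA j := by rw [hg, Fin.cons_zero]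
  have hgs : ∀ i : Fin n, g i.succ = tr (dA (e i)) (Y ^ β i) := by
    intro i
    rw [hg, Fin.cons_succ]
  have hgn : ∀ i n, 0 ≤ g i n := by
    intro i
    refine Fin.cases ?_ (fun i => ?_) i
    · intro n; rw [hg0]; exact dv_nonneg hj0.le n
    · intro n; rw [hgs]; exact tr_nonneg (fun m => dv_nonneg (he i).le m) _ n
  have hprod : ∏ i, g i = zR ^ j * PA e (fun i => Y ^ β i) := by
    rw [Fin.prod_univ_succ, hg0, dA_nat]
    unfold PA
    simp only [hgs]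
  have hs := Fb_hasSum hκ0.le Y g hgn
  have h1 := hT (Fb κ Y g) hs.summable ?_ ?_
  · rw [hs.tsum_eq, hprod] at h1
    exact h1
  · intro b
    unfold Fb
    refine mul_nonneg ?_ (prod_nonneg fun i _ => hgn i _)
    split_ifs
    · exact div_nonneg (dv_nonneg hκ0.le _) (by positivity)
    · exact le_refl _
  · intro b hb1 hb2
    by_cases hz : ∃ i, b i = 0
    · obtain ⟨i, hi⟩ := hz
      have h2 : wt κ e' b = 0 := by
        unfold wt
        rw [prod_eq_zero (mem_univ i) hi]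
        simp [dv]
      have h3 : Fb κ Y g b = 0 := by
        have hp : ∏ i, g i (b i) = 0 :=
          prod_eq_zero (mem_univ i) (by rw [hi, ArithmeticFunction.map_zero])
        unfold Fb
        rw [hp, mul_zero]
      rw [h2, h3]
    · push Not at hz
      have hpr : ((∏ i, b i : ℕ) : ℝ) ≤ Y := by
        have h2 : ∏ i, b i ≠ 0 := prod_ne_zero_iff.mpr fun i _ => hz i
        have h3 := (le_rpow_iff_pos hY1 h2 1).mpr (by
          rw [Nat.cast_prod, Real.log_prod fun i _ => by exact_mod_cast hz i, sum_div]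
          exact hb1)
        rwa [Real.rpow_one] at h3
      refine (Fb_eq_wt κ Y e' g b hpr ?_).ge
      intro i
      revert i
      refine Fin.cases ?_ (fun i => ?_)
      · rw [hg0, he', Fin.cons_zero]; rfl
      · rw [hgs, he', Fin.cons_succ, tr_apply,
          if_pos ((le_rpow_iff_pos hY1 (hz i.succ) (β i)).mpr (hb2 i)), dA_apply]

/-- the window integral of the numerator -/
theorem N_window {n : ℕ} (j : ℕ) (hj : 1 ≤ j) (e : Fin n → ℝ) (he : ∀ i, 0 < e i) (κ : ℝ)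
    (hκ : κ = j + ∑ i, e i) (β : Fin n → ℝ) (hβ : ∀ i, 0 < β i) (hβs : ∑ i, β i ≤ 1)
    (hm0 : 1 ≤ κ * j) (c : ℝ)
    (hc : c < aF κ * ((∏ i : Fin n, (β i) ^ (κ * e i) / Real.Gamma (κ * e i + 1)) *
      ((1 - ∑ i : Fin n, β i * (κ * e i / (κ * e i + 1))) ^ (κ * j) / Real.Gamma (κ * j + 1))))
    (η : ℝ × ℝ) (δ : ℝ) (hη : Ok η) (hδ : 0 < δ) (hδ1 : δ ≤ 1) :
    ∀ᶠ T : ℝ in atTop, ∀ τ : ℝ, δ * T ≤ τ → τ ≤ T →
      c * Real.log (Yu η T) ^ (κ ^ 2) ≤
      ‖∫ t in (τ - δ / 2 * T)..(τ + δ / 2 * T), (riemannZeta (1 / 2 + t * Complex.I) ^ j *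
          ∏ i, Dp (tr (dA (e i)) (Yu η T ^ β i)) (Yu η T ^ β i) (1 / 2 + t * Complex.I)) *
        (starRingEnd ℂ) (Dp (dA κ) (Yu η T) (1 / 2 + t * Complex.I)) * (gw τ (Hu η T) t : ℂ)‖ := by
  obtain ⟨c', hc1, hc2⟩ := exists_between hc
  have hκ0 : 0 < κ := by
    have h1 : 0 ≤ ∑ i, e i := sum_nonneg fun i _ => (he i).le
    have h2 : (0:ℝ) < j := by exact_mod_cast hj
    linarith
  have hN := N_sum j hj e he κ hκ β hβ hβs hm0 c' hc2 η hη
  obtain ⟨J, hJ⟩ := exists_nat_ge κ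
  have hJ' : ∑ i, e i ≤ J := by
    have h2 : (0:ℝ) < j := by exact_mod_cast hj
    linarith
  have hcore := core_ev1 j J η δ hη hδ hδ1
  have hbig : ∀ᶠ T : ℝ in atTop, 1 ≤ (c' - c) * Real.log (Yu η T) ^ (κ ^ 2) := by
    have h1 : Tendsto (fun T : ℝ => (c' - c) * Real.log (Yu η T) ^ (κ ^ 2)) atTop atTop :=
      Tendsto.const_mul_atTop (by linarith)
        ((tendsto_rpow_atTop (by positivity)).comp (Yu_tendsto hη))
    exact h1.eventually_ge_atTop 1
  filter_upwards [hN, hcore, hbig, eventually_ge_atTop 1] with T hT1 hT2 hT3 hT4 τ hτ1 hτ2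
  have hT0 : 0 < T := by linarith
  set Y := Yu η T with hYdef
  have hY1 : 1 ≤ Y := one_le_Yu hη hT4
  have hYT : Y ≤ T := Yu_le hη hT4
  have hXs : ∏ i, Y ^ β i ≤ Y := by
    rw [← Real.rpow_sum_of_pos (by linarith)]
    calc Y ^ (∑ i, β i) ≤ Y ^ (1:ℝ) := Real.rpow_le_rpow_of_exponent_le hY1 hβs
      _ = Y := Real.rpow_one Y
  have hD := fun s => Dp_prod univ (fun i => tr (dA (e i)) (Y ^ β i)) (fun i => Y ^ β i)
    (fun i => Real.one_le_rpow hY1 (hβ i).le) (fun i n hn => tr_supp _ _ n hn) s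
  have hsupp : ∀ n : ℕ, T < n → PA e (fun i => Y ^ β i) n = 0 := fun n hn =>
    (hD 0).1 n (by linarith)
  have h := hT2 τ hτ1 hτ2 (PA e (fun i => Y ^ β i)) (dA κ) (PA_PB (fun i => (he i).le) _ hJ')
    hsupp (PB_dA hκ0.le hJ)
  have hDp : ∀ s, Dp (PA e (fun i => Y ^ β i)) T s = ∏ i, Dp (tr (dA (e i)) (Y ^ β i)) (Y ^ β i) s := by
    intro s
    rw [Dp_mono (PA e (fun i => Y ^ β i)) (∏ i, Y ^ β i) T (by linarith) (hD s).1]
    exact (hD s).2
  simp only [hDp] at h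
  have h2 := norm_sub_norm_le (((∑ m ∈ Icc 1 ⌊Y⌋₊, (zR ^ j * PA e (fun i => Y ^ β i)) m * dA κ m / m : ℝ) : ℂ))
    (∫ t in (τ - δ / 2 * T)..(τ + δ / 2 * T), (riemannZeta (1 / 2 + t * Complex.I) ^ j *
          ∏ i, Dp (tr (dA (e i)) (Y ^ β i)) (Y ^ β i) (1 / 2 + t * Complex.I)) *
        (starRingEnd ℂ) (Dp (dA κ) Y (1 / 2 + t * Complex.I)) * (gw τ (Hu η T) t : ℂ))
  rw [norm_sub_rev] at h2
  rw [Complex.norm_real] at h2
  have h3 := Real.le_norm_self (∑ m ∈ Icc 1 ⌊Y⌋₊, (zR ^ j * PA e (fun i => Y ^ β i)) m * dA κ m / m)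
  linarith

/-- the window integrals of the auxiliary polynomials -/
theorem K_window (e : ℝ) (he : 0 < e) (q : ℕ) (hq : 1 ≤ q) (β : ℝ) (hβ : 0 < β)
    (hβq : β * q ≤ 1) (C : ℝ)
    (hC : aF (q * e) * (β ^ ((q * e) * e) / Real.Gamma ((q * e) * e + 1)) ^ q < C)
    (η : ℝ × ℝ) (δ : ℝ) (hη : Ok η) (hδ : 0 < δ) (hδ1 : δ ≤ 1) :
    ∀ᶠ T : ℝ in atTop, ∀ τ : ℝ, δ * T ≤ τ → τ ≤ T →
      ∫ t in (τ - δ / 2 * T)..(τ + δ / 2 * T),
        ‖Dp (tr (dA e) (Yu η T ^ β)) (Yu η T ^ β) (1 / 2 + t * Complex.I)‖ ^ (2 * q) * gw τ (Hu η T) t ≤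
        C * Real.log (Yu η T) ^ ((q * e) ^ 2) := by
  obtain ⟨C', hC1, hC2⟩ := exists_between hC
  have hκ0 : 0 < (q:ℝ) * e := by
    have : (0:ℝ) < q := by exact_mod_cast hq
    positivity
  have hK := K_sum e he q hq β hβ C' hC1 η hη
  obtain ⟨J, hJ⟩ := exists_nat_ge ((q:ℝ) * e)
  have hcore := core_ev1 0 J η δ hη hδ hδ1
  have hbig : ∀ᶠ T : ℝ in atTop, 1 ≤ (C - C') * Real.log (Yu η T) ^ (((q:ℝ) * e) ^ 2) := by
    have h1 : Tendsto (fun T : ℝ => (C - C') * Real.log (Yu η T) ^ (((q:ℝ) * e) ^ 2)) atTop atTop :=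
      Tendsto.const_mul_atTop (by linarith)
        ((tendsto_rpow_atTop (by positivity)).comp (Yu_tendsto hη))
    exact h1.eventually_ge_atTop 1
  filter_upwards [hK, hcore, hbig, eventually_ge_atTop 1] with T hT1 hT2 hT3 hT4 τ hτ1 hτ2
  have hT0 : 0 < T := by linarith
  set Y := Yu η T with hYdef
  have hY1 : 1 ≤ Y := one_le_Yu hη hT4
  have hYT : Y ≤ T := Yu_le hη hT4
  set X := Y ^ β with hX
  have hX1 : 1 ≤ X := Real.one_le_rpow hY1 hβ.le
  have hXq : X ^ q ≤ Y := by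
    rw [hX, ← Real.rpow_natCast, ← Real.rpow_mul (by linarith)]
    calc Y ^ (β * q) ≤ Y ^ (1:ℝ) := Real.rpow_le_rpow_of_exponent_le hY1 hβq
      _ = Y := Real.rpow_one Y
  set B := tr (dA e) X with hB
  have hD := fun s => Dp_pow B X hX1 (fun n hn => tr_supp _ _ n hn) s q
  have hPB : PB (B ^ q) J := by
    intro m
    have h0 := tr_pow_nonneg he.le X q m
    have h1 := tr_pow_le he.le X q m
    rw [abs_of_nonneg h0]
    refine h1.trans ((le_abs_self _).trans ?_)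
    exact PB_dA hκ0.le hJ m
  have h := hT2 τ hτ1 hτ2 (B ^ q) (B ^ q) hPB (fun n hn => (hD 0).1 n (by linarith)) hPB
  have hDT : ∀ s, Dp (B ^ q : ArithmeticFunction ℝ) T s = Dp B X s ^ q := by
    intro s
    rw [Dp_mono (B ^ q) (X ^ q) T (by linarith) (hD s).1]
    exact (hD s).2
  have hDY : ∀ s, Dp (B ^ q : ArithmeticFunction ℝ) Y s = Dp B X s ^ q := by
    intro s
    rw [Dp_mono (B ^ q) (X ^ q) Y hXq (hD s).1]
    exact (hD s).2
  simp only [hDT, hDY, pow_zero, one_mul] at h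
  have hint : ∀ t : ℝ, Dp B X (1 / 2 + t * Complex.I) ^ q *
      (starRingEnd ℂ) (Dp B X (1 / 2 + t * Complex.I) ^ q) * (gw τ (Hu η T) t : ℂ) =
      ((‖Dp B X (1 / 2 + t * Complex.I)‖ ^ (2 * q) * gw τ (Hu η T) t : ℝ) : ℂ) := by
    intro t
    rw [Complex.mul_conj, Complex.normSq_eq_norm_sq, norm_pow, ← pow_mul, mul_comm q 2]
    push_cast
    ring
  simp only [hint] at h
  rw [intervalIntegral.integral_ofReal, ← Complex.ofReal_sub, Complex.norm_real] at h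
  have h3 := (Real.le_norm_self _).trans h
  linarith

end

end Pool.Agent.H176RZ.D.R
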