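import Pool.Agent.H176RZ.DecE
import Pool.Agent.H306R2.RMain

set_option autoImplicit false

/-!
# Real moments on `[T, T + H]`, `H ≥ T^θ`, fixed parameters (after `H306R2.lower_fixedR`)
-/

namespace Pool.Agent.H176RZ.D.R

open Finset Filter Topology MeasureTheory Pool.Agent.H306R2 Pool.Agent.H176RZ.D

noncomputable section

theorem zeta_polyR (κ : ℝ) (hκ : 0 < κ) (M : ℕ) (hM : 2 * κ ≤ M) : ∀ t : ℝ, 0 ≤ t →
    ‖riemannZeta (1 / 2 + t * Complex.I)‖ ^ (2 * κ) ≤ 24 ^ M * (1 + t) ^ (2 * M) := by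
  intro t ht
  have h : ‖riemannZeta (1 / 2 + t * Complex.I)‖ ≤ 24 * (1 + t) ^ 2 :=
    Pool.Agent.H306R2.SM.zeta_cl_bound t ht
  have h1 : (1:ℝ) ≤ 24 * (1 + t) ^ 2 := by nlinarith
  calc ‖riemannZeta (1 / 2 + t * Complex.I)‖ ^ (2 * κ) ≤ (24 * (1 + t) ^ 2) ^ (2 * κ) :=
        Real.rpow_le_rpow (norm_nonneg _) h (by positivity)
    _ ≤ (24 * (1 + t) ^ 2) ^ (M : ℝ) := Real.rpow_le_rpow_of_exponent_le h1 hM
    _ = 24 ^ M * (1 + t) ^ (2 * M) := by rw [Real.rpow_natCast, mul_pow, ← pow_mul]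

/-- lower bound with fixed parameters -/
theorem lower_fixedU {n : ℕ} (η : ℝ × ℝ) (hη : Ok η) (κ : ℝ) (hκ0 : 0 < κ) (j : ℕ) (q : Fin n → ℕ) (β : Fin n → ℝ) (hA : AdmR κ j q β)
    (N S : ℝ) (K : Fin n → ℝ) (hN : 0 < N)
    (hNV : N < aF κ * ((∏ i : Fin n, (β i) ^ (κ ^ 2 / q i) /
        Real.Gamma (κ ^ 2 / q i + 1)) *
      ((1 - ∑ i : Fin n, β i * (κ ^ 2 / q i / (κ ^ 2 / q i + 1))) ^
        (κ * j) / Real.Gamma (κ * j + 1))))
    (hSV : aF κ / Real.Gamma (κ ^ 2 + 1) < S)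
    (hKV : ∀ i, aF κ * ((β i) ^ (κ ^ 2 / q i) /
        Real.Gamma (κ ^ 2 / q i + 1)) ^ (q i) < K i)
    (x : ℝ) (hx : 0 < x) (hx2 : x < 1 / 4) :
    ∀ᶠ T : ℝ in atTop, ∀ H : ℝ, T ^ (η.1 + η.2) ≤ H → H ≤ T / 4 →
      (1 - 2 * x) * H * ((N / (S ^ (1 / 2 : ℝ) * ∏ i, K i ^ (1 / (2 * (q i : ℝ))))) ^ (2 * κ / (j:ℝ)) *
        ((η.1 - η.2) * Real.log T) ^ (κ ^ 2) - 1) ≤
      ∫ t in (T / 4)..(T / 4 + H), ‖riemannZeta (1 / 2 + t * Complex.I)‖ ^ (2 * κ) := by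
  have hj0 : (0:ℝ) < j := by exact_mod_cast hA.hj
  have hq0 : ∀ i, (0:ℝ) < q i := fun i => by exact_mod_cast (by linarith [hA.hq i] : 0 < q i)
  have hS0 : 0 < S := lt_trans (div_pos (aF_pos hκ0) (Real.Gamma_pos_of_pos (by positivity))) hSV
  have hV0 : ∀ i, 0 < (β i) ^ (κ ^ 2 / q i) / Real.Gamma (κ ^ 2 / q i + 1) := fun i => by
    have h1 := hA.hβ i
    have h2 := hq0 i
    have h3 := Real.Gamma_pos_of_pos (by positivity : 0 < κ ^ 2 / q i + 1)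
    positivity
  have hK0 : ∀ i, 0 < K i := fun i =>
    lt_trans (mul_pos (aF_pos hκ0) (pow_pos (hV0 i) _)) (hKV i)
  -- exponents
  have hsumq : (j:ℝ) + ∑ i, κ / q i = κ := by
    have h := hA.hsum
    have h1 : ∑ i, κ / (q i:ℝ) = κ * ∑ i, 1 / (q i : ℝ) := by
      rw [mul_sum]
      exact sum_congr rfl fun i _ => by ring
    have h2 : ∑ i, 1 / (q i : ℝ) = 1 - (j:ℝ) / κ := by linarith
    rw [h1, h2]
    field_simp
    ring
  have hjk : (j:ℝ) / (2 * κ) + 1 / 2 + ∑ i, 1 / (2 * (q i : ℝ)) = 1 := by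
    have h := hA.hsum
    have h1 : ∑ i, 1 / (2 * (q i : ℝ)) = (∑ i, 1 / (q i : ℝ)) / 2 := by
      rw [sum_div]
      exact sum_congr rfl fun i _ => by rw [div_div, mul_comm (q i : ℝ) 2]
    rw [h1]
    have h2 : ∑ i, 1 / (q i : ℝ) = 1 - (j:ℝ) / κ := by linarith
    rw [h2]
    field_simp
    ring
  have he : ∀ i, 0 < κ / (q i : ℝ) := fun i => div_pos hκ0 (hq0 i)
  have hκe : ∀ i, κ * (κ / (q i : ℝ)) = κ ^ 2 / q i := fun i => by ring
  have hqe : ∀ i, (q i : ℝ) * (κ / (q i : ℝ)) = κ := fun i => by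
    have := hq0 i
    field_simp
  have hEN := N_window j hA.hj (fun i => κ / (q i : ℝ)) he κ hsumq.symm β hA.hβ hA.hβs hA.hm N (by
    simp only [hκe]
    exact hNV) η x hη hx (by linarith)
  have hES := K_window κ hκ0 1 le_rfl 1 one_pos (by norm_num) S (by
    simp only [Nat.cast_one, one_mul, Real.one_rpow, pow_one]
    rw [mul_one_div, ← pow_two]
    exact hSV) η x hη hx (by linarith)
  have hEK : ∀ i, ∀ᶠ T : ℝ in atTop, ∀ τ : ℝ, x * T ≤ τ → τ ≤ T →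
      ∫ t in (τ - x / 2 * T)..(τ + x / 2 * T),
        ‖Dp (tr (dA (κ / (q i : ℝ))) (Yu η T ^ β i)) (Yu η T ^ β i) (1 / 2 + t * Complex.I)‖ ^ (2 * q i) *
          gw τ (Hu η T) t ≤ K i * Real.log (Yu η T) ^ (κ ^ 2) := by
    intro i
    have h := K_window (κ / (q i : ℝ)) (he i) (q i) (by linarith [hA.hq i]) (β i) (hA.hβ i) (by
      have := hA.hβq i
      rwa [le_div_iff₀ (hq0 i)] at this) (K i) (by
      rw [hqe, hκe]
      exact hKV i) η x hη hx (by linarith)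
    rw [hqe] at h
    exact h
  have hEK' := eventually_all.mpr hEK
  have hΔ0 : 0 < (N / (S ^ (1 / 2 : ℝ) * ∏ i, K i ^ (1 / (2 * (q i : ℝ))))) ^ (2 * κ / (j:ℝ)) := by
    have : 0 < S ^ (1 / 2 : ℝ) * ∏ i, K i ^ (1 / (2 * (q i : ℝ))) :=
      mul_pos (by positivity) (prod_pos fun i _ => Real.rpow_pos_of_pos (hK0 i) _)
    positivity
  have hbig : ∀ᶠ T : ℝ in atTop,
      1 / (N / (S ^ (1 / 2 : ℝ) * ∏ i, K i ^ (1 / (2 * (q i : ℝ))))) ^ (2 * κ / (j:ℝ)) ≤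
      Real.log (Yu η T) ^ (κ ^ 2) :=
    ((tendsto_rpow_atTop (by positivity)).comp (Yu_tendsto hη)).eventually_ge_atTop _
  obtain ⟨M, hM⟩ := exists_nat_ge (2 * κ)
  have hG := gauss_short η hη (fun t => ‖riemannZeta (1 / 2 + t * Complex.I)‖ ^ (2 * κ))
    (zeta_line_continuous.norm.rpow_const fun _ => Or.inr (by positivity)) (fun t => by positivity)
    (24 ^ M) (2 * M) (zeta_polyR κ hκ0 M hM) x hx hx2
  filter_upwards [hEN, hES, hEK', eventually_gt_atTop 1, (Yu_tendsto hη).eventually_gt_atTop 0, hbig, hG]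
    with T hT1 hT2 hT3 hT4 hT5 hT6 hT7 H hH1 hH2
  have hT0 : 0 < T := by linarith
  have hH0 : 0 < Hu η T := Real.rpow_pos_of_pos hT0 _
  set Λ := Real.log (Yu η T) ^ (κ ^ 2) with hΛ
  have hΛ0 : 0 < Λ := Real.rpow_pos_of_pos hT5 _
  set D := (N / (S ^ (1 / 2 : ℝ) * ∏ i, K i ^ (1 / (2 * (q i : ℝ))))) ^ (2 * κ / (j:ℝ)) with hD
  have hD0 : 0 ≤ D := by
    have : 0 < S ^ (1 / 2 : ℝ) * ∏ i, K i ^ (1 / (2 * (q i : ℝ))) :=
      mul_pos (by positivity) (prod_pos fun i _ => Real.rpow_pos_of_pos (hK0 i) _)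
    positivity
  have hwin : ∀ τ ∈ Set.Icc (x * T) ((1 - x) * T), D * Λ ≤
      ∫ t in (τ - x / 2 * T)..(τ + x / 2 * T), ‖riemannZeta (1 / 2 + t * Complex.I)‖ ^ (2 * κ) *
        gw τ (Hu η T) t := by
    intro τ hτ
    have hτ2 : τ ≤ T := by
      have := hτ.2
      nlinarith
    have h := window_holder_real n q (fun i => by linarith [hA.hq i]) j (2 * κ) hA.hj (by positivity) hjk
      (fun t => riemannZeta (1 / 2 + t * Complex.I))
      (fun t => Dp (dA κ) (Yu η T) (1 / 2 + t * Complex.I))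
      (fun i t => Dp (tr (dA (κ / (q i : ℝ))) (Yu η T ^ β i)) (Yu η T ^ β i) (1 / 2 + t * Complex.I))
      zeta_line_continuous (Dp_line_continuous _ _) (fun i => Dp_line_continuous _ _)
      (gw τ (Hu η T)) (gw_continuous _ _) (fun t => gw_nonneg _ _ _ hH0)
      (τ - x / 2 * T) (τ + x / 2 * T) (by nlinarith) (N * Λ) (S * Λ) (fun i => K i * Λ)
      (by positivity) (by positivity) (fun i => mul_pos (hK0 i) hΛ0)
      (hT1 τ hτ.1 hτ2)
      (by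
        have := hT2 τ hτ.1 hτ2
        simp only [Real.rpow_one, Nat.cast_one, one_mul, mul_one, Dp_trunc] at this
        exact this)
      (fun i => hT3 i τ hτ.1 hτ2)
    rw [pullR q j (2 * κ) hA.hj (by positivity) hjk N S K Λ hN hS0 hK0 hΛ0] at h
    exact h
  have hJ1 : 1 ≤ D * Λ := by
    rw [div_le_iff₀ hΔ0] at hT6
    linarith
  have hfin := hT7 (D * Λ) hJ1 hwin H hH1 hH2
  refine le_trans (le_of_eq ?_) hfin
  have hlog : Real.log (Yu η T) = (η.1 - η.2) * Real.log T := by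
    unfold Yu
    rw [Real.log_rpow hT0]
  rw [hΛ, hlog]

end

end Pool.Agent.H176RZ.D.R
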