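import Pool.Agent.H176RZ.DecF

set_option autoImplicit false

/-!
# Real moments of zeta on `[T, T + H]`, `T^θ ≤ H ≤ T`, for every `θ > 0`
-/

namespace Pool.Agent.H176RZ.D.R

open Finset Filter Topology MeasureTheory Pool.Agent.H306R2 Pool.Agent.H176RZ.D

noncomputable section

theorem local_scaleR {n : ℕ} (κ : ℝ) (hκ0 : 0 < κ) (j : ℕ) (q : Fin n → ℕ) (β : Fin n → ℝ) (hA : AdmR κ j q β)
    (c : ℝ) (hc : c < aF κ * mB κ j q β) (hc0 : 0 < c) :
    ∃ ρ : ℝ, 0 < ρ ∧ ρ < 1 ∧ ∀ u : ℝ, 0 < u → u ≤ 1 → ∀ᶠ T : ℝ in atTop, ∀ H : ℝ,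
      T ^ u ≤ H → H ≤ T → H ≤ T ^ (u / ρ) →
      c * (H * Real.log H ^ (κ ^ 2)) ≤
        ∫ t in T..(T + H), ‖riemannZeta (1 / 2 + t * Complex.I)‖ ^ (2 * κ) := by
  have hj0 : (0:ℝ) < j := by exact_mod_cast hA.hj
  have hq0 : ∀ i, (0:ℝ) < q i := fun i => by exact_mod_cast (by linarith [hA.hq i] : 0 < q i)
  have hjk : (j:ℝ) / (2 * κ) + 1 / 2 + ∑ i, 1 / (2 * (q i : ℝ)) = 1 := by
    have h := hA.hsum
    have h1 : ∑ i, 1 / (2 * (q i : ℝ)) = (∑ i, 1 / (q i : ℝ)) / 2 := by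
      rw [sum_div]
      exact sum_congr rfl fun i _ => by rw [div_div, mul_comm (q i : ℝ) 2]
    rw [h1]
    have h2 : ∑ i, 1 / (q i : ℝ) = 1 - (j:ℝ) / κ := by linarith
    rw [h2]
    field_simp
    ring
  set a := aF κ with ha
  have ha0 : 0 < a := aF_pos hκ0
  set V : Fin n → ℝ := fun i => (β i) ^ (κ ^ 2 / q i) / Real.Gamma (κ ^ 2 / q i + 1) with hV
  have hV0 : ∀ i, 0 < V i := fun i => by
    have h1 := hA.hβ i
    have h2 := hq0 i
    have h3 := Real.Gamma_pos_of_pos (by positivity : 0 < κ ^ 2 / q i + 1)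
    rw [hV]
    positivity
  set t := 1 - ∑ i, β i * (κ ^ 2 / q i / (κ ^ 2 / q i + 1)) with ht
  have ht0 : 0 < t := by
    rcases Nat.eq_zero_or_pos n with h0 | h0
    · subst h0
      rw [ht]; simp
    · have : ∑ i, β i * (κ ^ 2 / q i / (κ ^ 2 / q i + 1)) < ∑ i, β i := by
        have hne : (univ : Finset (Fin n)).Nonempty := ⟨⟨0, h0⟩, mem_univ _⟩
        refine sum_lt_sum_of_nonempty hne fun i _ => ?_
        have h1 := hA.hβ i
        have h2 := hq0 i
        have h4 : 0 < κ ^ 2 / q i := by positivity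
        have h3 : κ ^ 2 / q i / (κ ^ 2 / q i + 1) < 1 := by rw [div_lt_one (by linarith)]; linarith
        nlinarith
      have := hA.hβs
      linarith
  set G := Real.Gamma (κ ^ 2 + 1) with hG
  have hG0 : 0 < G := Real.Gamma_pos_of_pos (by positivity)
  set G0 := Real.Gamma (κ * j + 1) with hG0d
  have hG00 : 0 < G0 := Real.Gamma_pos_of_pos (by positivity)
  have hPV : 0 < ∏ i, V i := prod_pos fun i _ => hV0 i
  set N0 := a * ((∏ i, V i) * (t ^ (κ * j) / G0)) with hN0d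
  have hN0 : 0 < N0 := by positivity
  have hconst : (N0 / ((a / G) ^ (1 / 2 : ℝ) * ∏ i, (a * V i ^ (q i)) ^ (1 / (2 * (q i : ℝ))))) ^
      (2 * κ / (j:ℝ)) = a * mB κ j q β := by
    rw [hN0d, const_eqR q hA.hq j (2 * κ) hA.hj (by positivity) hjk a ha0 V hV0 t (κ * j) G G0 ht0 hG0 hG00,
      show 2 * κ / 2 / (j:ℝ) = κ / j by ring]
    rfl
  -- perturbation
  set P : ℝ → ℝ := fun x => (((1 - x) * N0) / (((1 + x) * (a / G)) ^ (1 / 2 : ℝ) *
      ∏ i, ((1 + x) * (a * V i ^ (q i))) ^ (1 / (2 * (q i : ℝ))))) ^ (2 * κ / (j:ℝ)) with hP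
  set f : ℝ → ℝ := fun x => P x *
        ((1 - 2 * x) ^ (2 * κ ^ 2) * (1 - 2 * x)) with hf
  have hf0 : f 0 = a * mB κ j q β := by
    rw [hf, hP]
    simp only [sub_zero, one_mul, add_zero, mul_zero, Real.one_rpow, mul_one]
    exact hconst
  have hlim : Tendsto f (𝓝[>] 0) (𝓝 (f 0)) := by
    have h1 : ContinuousAt f 0 := by
      rw [hf, hP]
      have hprod : ContinuousAt (fun x : ℝ => ∏ i, ((1 + x) * (a * V i ^ (q i))) ^ (1 / (2 * (q i : ℝ)))) 0 := by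
        refine tendsto_finsetProd _ fun i _ => ?_
        have hc : ContinuousAt (fun x : ℝ => ((1 + x) * (a * V i ^ (q i))) ^ (1 / (2 * (q i : ℝ)))) 0 := by
          refine ContinuousAt.rpow_const (by fun_prop) (Or.inl ?_)
          have := hV0 i
          simp only [add_zero, one_mul]
          positivity
        exact hc
      have hD0 : ((1 + (0:ℝ)) * (a / G)) ^ (1 / 2 : ℝ) *
          ∏ i, ((1 + (0:ℝ)) * (a * V i ^ (q i))) ^ (1 / (2 * (q i : ℝ))) ≠ 0 := by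
        simp only [add_zero, one_mul]
        have h1 : 0 < ∏ i, (a * V i ^ (q i)) ^ (1 / (2 * (q i : ℝ))) :=
          prod_pos fun i _ => Real.rpow_pos_of_pos (mul_pos ha0 (pow_pos (hV0 i) _)) _
        positivity
      have hS : ContinuousAt (fun x : ℝ => ((1 + x) * (a / G)) ^ (1 / 2 : ℝ)) 0 := by
        refine ContinuousAt.rpow_const (by fun_prop) (Or.inl ?_)
        simp only [add_zero, one_mul]
        positivity
      refine ContinuousAt.mul (ContinuousAt.rpow_const (ContinuousAt.div (by fun_prop)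
        (hS.mul hprod) hD0) (Or.inl ?_)) (ContinuousAt.mul
          (ContinuousAt.rpow_const (by fun_prop) (Or.inl (by norm_num))) (by fun_prop))
      have h1 : 0 < ∏ i, (a * V i ^ (q i)) ^ (1 / (2 * (q i : ℝ))) :=
        prod_pos fun i _ => Real.rpow_pos_of_pos (mul_pos ha0 (pow_pos (hV0 i) _)) _
      simp only [sub_zero, add_zero, one_mul]
      positivity
    exact h1.tendsto.mono_left nhdsWithin_le_nhds
  rw [hf0] at hlim
  obtain ⟨x, hxc, hx0, hx4⟩ := ((hlim.eventually_const_lt hc).and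
    (Ioo_mem_nhdsGT (by norm_num : (0:ℝ) < 1 / 4))).exists
  set ρ : ℝ := 1 - 2 * x with hρ
  have hρ0 : 0 < ρ := by rw [hρ]; linarith
  have hρ1 : ρ < 1 := by rw [hρ]; linarith
  refine ⟨ρ, hρ0, hρ1, fun u hu0 hu1 => ?_⟩
  set ε : ℝ := x * u / 2 with hε
  have hε0 : 0 < ε := by positivity
  have hok : Ok (u - 2 * ε, ε) := by
    refine ⟨hε0, ?_, ?_⟩
    · show ε < u - 2 * ε
      rw [hε]; nlinarith
    · show u - 2 * ε + ε ≤ 1
      linarith
  have hmain := lower_fixedU (u - 2 * ε, ε) hok κ hκ0 j q β hA ((1 - x) * N0) ((1 + x) * (a / G))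
    (fun i => (1 + x) * (a * V i ^ (q i))) (mul_pos (by linarith) hN0)
    (by
      have : (1 - x) * N0 < N0 := by nlinarith
      exact this)
    (by
      have : a / G < (1 + x) * (a / G) := by
        have : 0 < a / G := by positivity
        nlinarith
      exact this)
    (fun i => by
      have h1 : 0 < a * V i ^ (q i) := mul_pos ha0 (pow_pos (hV0 i) _)
      have : a * V i ^ (q i) < (1 + x) * (a * V i ^ (q i)) := by nlinarith
      exact this) x hx0 hx4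
  simp only at hmain
  have hPx : (((1 - x) * N0) / (((1 + x) * (a / G)) ^ (1 / 2 : ℝ) *
      ∏ i, ((1 + x) * (a * V i ^ (q i))) ^ (1 / (2 * (q i : ℝ))))) ^ (2 * κ / (j:ℝ)) = P x := rfl
  rw [hPx] at hmain
  have hPx0 : 0 ≤ P x := by
    rw [hP]
    have h1 : 0 < ∏ i, ((1 + x) * (a * V i ^ (q i))) ^ (1 / (2 * (q i : ℝ))) :=
      prod_pos fun i _ => Real.rpow_pos_of_pos (mul_pos (by linarith)
        (mul_pos ha0 (pow_pos (hV0 i) _))) _
    have h2 : 0 < (1 - x) * N0 := mul_pos (by linarith) hN0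
    positivity
  have h4T : Tendsto (fun T : ℝ => 4 * T) atTop atTop :=
    tendsto_id.const_mul_atTop (by norm_num)
  have hκ2 : 0 < κ ^ 2 := by positivity
  have hlg : ∀ᶠ T : ℝ in atTop, 1 / (f x - c) ≤ (u * Real.log T) ^ (κ ^ 2) :=
    ((tendsto_rpow_atTop hκ2).comp
      (Real.tendsto_log_atTop.const_mul_atTop hu0)).eventually_ge_atTop _
  have hrp : ∀ᶠ T : ℝ in atTop, (4:ℝ) ≤ T ^ ε :=
    (tendsto_rpow_atTop hε0).eventually_ge_atTop _
  filter_upwards [h4T.eventually hmain, eventually_gt_atTop 1, hlg, hrp] with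
    T hT hT1 hT2 hT3 H hH1 hH2 hH3
  have hT0 : 0 < T := by linarith
  have hH0 : 0 < H := lt_of_lt_of_le (Real.rpow_pos_of_pos hT0 _) hH1
  have hpw : (4 * T) ^ (u - 2 * ε + ε) ≤ H := by
    refine le_trans ?_ hH1
    rw [Real.mul_rpow (by norm_num) hT0.le]
    have e1 : T ^ u = T ^ ε * T ^ (u - 2 * ε + ε) := by
      rw [← Real.rpow_add hT0]; congr 1; ring
    rw [e1]
    apply mul_le_mul_of_nonneg_right _ (by positivity)
    refine le_trans ?_ hT3
    calc (4:ℝ) ^ (u - 2 * ε + ε) ≤ 4 ^ (1:ℝ) :=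
          Real.rpow_le_rpow_of_exponent_le (by norm_num) (by linarith)
      _ = 4 := Real.rpow_one _
  have h := hT H hpw (by linarith)
  rw [show 4 * T / 4 = T by ring] at h
  refine le_trans ?_ h
  have hlog : 0 ≤ Real.log T := Real.log_nonneg hT1.le
  have hlog4 : Real.log T ≤ Real.log (4 * T) := Real.log_le_log hT0 (by linarith)
  have hfc : 0 < f x - c := by linarith
  rw [div_le_iff₀ hfc] at hT2
  have hHone : 1 ≤ H := (Real.one_le_rpow hT1.le hu0.le).trans hH1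
  have hlogH : 0 ≤ Real.log H := Real.log_nonneg hHone
  have hlogH2 : Real.log H ≤ u / ρ * Real.log T := by
    have := Real.log_le_log hH0 hH3
    rwa [Real.log_rpow hT0] at this
  have hfx : f x = P x * (ρ ^ (2 * κ ^ 2) * ρ) := by rw [hf]
  set a' : ℝ := Real.log H ^ (κ ^ 2) with ha'
  set b : ℝ := (u * Real.log T) ^ (κ ^ 2) with hb
  have hb0 : 0 ≤ b := by positivity
  have hρm : 0 < ρ ^ (κ ^ 2) := Real.rpow_pos_of_pos hρ0 _
  have hρm1 : ρ ^ (κ ^ 2) ≤ 1 := Real.rpow_le_one hρ0.le hρ1.le hκ2.le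
  have hab : a' * ρ ^ (κ ^ 2) ≤ b := by
    rw [ha', hb, ← Real.mul_rpow hlogH hρ0.le]
    apply Real.rpow_le_rpow (by positivity) _ hκ2.le
    calc Real.log H * ρ ≤ (u / ρ * Real.log T) * ρ := mul_le_mul_of_nonneg_right hlogH2 hρ0.le
      _ = u * Real.log T := by field_simp
  have hGb : P x * (ρ ^ (κ ^ 2) * b) ≤
      P x * ((u - 2 * ε - ε) * Real.log (4 * T)) ^ (κ ^ 2) := by
    apply mul_le_mul_of_nonneg_left _ hPx0
    rw [hb, ← Real.mul_rpow hρ0.le (by positivity)]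
    apply Real.rpow_le_rpow (by positivity) _ hκ2.le
    have e2 : ρ * u ≤ u - 2 * ε - ε := by
      rw [hρ, hε]; nlinarith
    calc ρ * (u * Real.log T) = (ρ * u) * Real.log T := by ring
      _ ≤ (u - 2 * ε - ε) * Real.log (4 * T) := mul_le_mul e2 hlog4 hlog (by nlinarith)
  have key : c * a' ≤ ρ * (P x * ((u - 2 * ε - ε) * Real.log (4 * T)) ^ (κ ^ 2) - 1) := by
    have h6 : c * a' ≤ ρ * (P x * (ρ ^ (κ ^ 2) * b) - 1) := by
      have h7 : (c * a') * ρ ^ (κ ^ 2) ≤ (ρ * (P x * (ρ ^ (κ ^ 2) * b) - 1)) * ρ ^ (κ ^ 2) := by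
        have h8 : (c * a') * ρ ^ (κ ^ 2) ≤ c * b := by
          calc (c * a') * ρ ^ (κ ^ 2) = c * (a' * ρ ^ (κ ^ 2)) := by ring
            _ ≤ c * b := mul_le_mul_of_nonneg_left hab hc0.le
        have h11 : ρ ^ (2 * κ ^ 2) = ρ ^ (κ ^ 2) * ρ ^ (κ ^ 2) := by
          rw [two_mul, Real.rpow_add hρ0]
        have h9 : (ρ * (P x * (ρ ^ (κ ^ 2) * b) - 1)) * ρ ^ (κ ^ 2) =
            f x * b - ρ * ρ ^ (κ ^ 2) := by
          rw [hfx, h11]; ring
        rw [h9]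
        have h10 : ρ * ρ ^ (κ ^ 2) ≤ 1 := by nlinarith
        nlinarith
      exact le_of_mul_le_mul_right h7 hρm
    refine h6.trans ?_
    apply mul_le_mul_of_nonneg_left _ hρ0.le
    linarith
  calc c * (H * a') = H * (c * a') := by ring
    _ ≤ H * (ρ * (P x * ((u - 2 * ε - ε) * Real.log (4 * T)) ^ (κ ^ 2) - 1)) :=
        mul_le_mul_of_nonneg_left key hH0.le
    _ = _ := by rw [hρ]; ring

/-- real moments on all intervals of length `T^θ ≤ H ≤ T` -/
theorem masterAll {n : ℕ} (κ : ℝ) (hκ0 : 0 < κ) (j : ℕ) (q : Fin n → ℕ) (β : Fin n → ℝ)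
    (hA : AdmR κ j q β) (hpos : 0 < aF κ * mB κ j q β)
    (c : ℝ) (hc : c < aF κ * mB κ j q β) (θ : ℝ) (hθ : 0 < θ) :
    ∀ᶠ T : ℝ in atTop, ∀ H : ℝ, T ^ θ ≤ H → H ≤ T →
      c * (H * Real.log H ^ (κ ^ 2)) ≤
        ∫ t in T..(T + H), ‖riemannZeta (1 / 2 + t * Complex.I)‖ ^ (2 * κ) := by
  set C := aF κ * mB κ j q β with hC
  set c' : ℝ := max c (C / 2) with hc'
  have hc'0 : 0 < c' := lt_of_lt_of_le (by positivity) (le_max_right _ _)
  have hc'C : c' < C := max_lt hc (by linarith)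
  obtain ⟨ρ, hρ0, hρ1, hloc⟩ := local_scaleR κ hκ0 j q β hA c' hc'C hc'0
  obtain ⟨N, hN⟩ := exists_pow_lt_of_lt_one hθ hρ1
  have hev : ∀ᶠ T : ℝ in atTop, ∀ i ∈ Finset.range N, θ / ρ ^ i ≤ 1 → ∀ H : ℝ,
      T ^ (θ / ρ ^ i) ≤ H → H ≤ T → H ≤ T ^ (θ / ρ ^ i / ρ) →
      c' * (H * Real.log H ^ (κ ^ 2)) ≤
        ∫ t in T..(T + H), ‖riemannZeta (1 / 2 + t * Complex.I)‖ ^ (2 * κ) := by
    rw [Filter.eventually_all_finset]
    intro i _
    by_cases h : θ / ρ ^ i ≤ 1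
    · filter_upwards [hloc (θ / ρ ^ i) (by positivity) h] with T hT _ using hT
    · exact Eventually.of_forall fun T h' => absurd h' h
  filter_upwards [hev, eventually_gt_atTop 1] with T hT hT1 H hH1 hH2
  have hT0 : 0 < T := by linarith
  have hHone : 1 ≤ H := (Real.one_le_rpow hT1.le hθ.le).trans hH1
  have hlogH : 0 ≤ Real.log H := Real.log_nonneg hHone
  have hpN : H < T ^ (θ / ρ ^ N) := by
    refine lt_of_le_of_lt hH2 ?_
    have h1 : 1 < θ / ρ ^ N := by rwa [one_lt_div (by positivity)]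
    calc T = T ^ (1:ℝ) := (Real.rpow_one T).symm
      _ < T ^ (θ / ρ ^ N) := Real.rpow_lt_rpow_of_exponent_lt hT1 h1
  classical
  have hex : ∃ n : ℕ, H < T ^ (θ / ρ ^ n) := ⟨N, hpN⟩
  set n' := Nat.find hex with hn
  have hn1 : H < T ^ (θ / ρ ^ n') := Nat.find_spec hex
  have hnN : n' ≤ N := Nat.find_min' hex hpN
  have hn0 : n' ≠ 0 := by
    intro h0
    rw [h0, pow_zero, div_one] at hn1
    linarith
  obtain ⟨i, hi⟩ := Nat.exists_eq_succ_of_ne_zero hn0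
  have hi1 : ¬ H < T ^ (θ / ρ ^ i) := Nat.find_min hex (by rw [← hn, hi]; exact Nat.lt_succ_self i)
  have hi2 : T ^ (θ / ρ ^ i) ≤ H := not_lt.1 hi1
  have hi3 : θ / ρ ^ i ≤ 1 := by
    by_contra hcon
    have h1 : T ^ (1:ℝ) < T ^ (θ / ρ ^ i) :=
      Real.rpow_lt_rpow_of_exponent_lt hT1 (not_le.1 hcon)
    rw [Real.rpow_one] at h1
    linarith
  have hi4 : H ≤ T ^ (θ / ρ ^ i / ρ) := by
    rw [hi, Nat.succ_eq_add_one, pow_succ, ← div_div] at hn1
    exact hn1.le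
  refine le_trans ?_ (hT i (Finset.mem_range.2 (by omega)) hi3 H hi2 hH2 hi4)
  have : 0 ≤ Real.log H ^ (κ ^ 2) := Real.rpow_nonneg hlogH _
  exact mul_le_mul_of_nonneg_right (le_max_left _ _) (by positivity)

end

end Pool.Agent.H176RZ.D.R
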