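import Pool.Agent.H601R2.SMLoc

set_option autoImplicit false

/-!
# From Gamma-weighted lower bounds to short windows `[T, T+H]`, `H ≥ T / (log T)^a`, `a < 1/2`
(variant of `Pool.Agent.H601R2.SMLoc.window_local` of helper601)
-/

namespace Pool.Agent.H176RZ

open Finset Filter Topology MeasureTheory Pool.Agent.H306R2 Pool.Agent.H306R2.SM
open Pool.Agent.H965R2.SMT1 Pool.Agent.H601R2.SMLoc

noncomputable section

theorem g_lower {θ : ℝ} (h0 : 0 < θ) (h1 : θ ≤ 1) :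
    θ ^ 2 / 16 ≤ 1 / (1 + θ) - 1 - Real.log (1 / (1 + θ)) := by
  set s := Real.sqrt (1 + θ) with hs
  have hs2 : s ^ 2 = 1 + θ := Real.sq_sqrt (by linarith)
  have hs0 : 0 < s := Real.sqrt_pos.2 (by linarith)
  have hs1 : 1 ≤ s := by rw [hs]; exact Real.one_le_sqrt.2 (by linarith)
  have hl : 1 - s⁻¹ ≤ Real.log s := Real.one_sub_inv_le_log_of_pos hs0
  have hlog : Real.log (1 / (1 + θ)) = -(2 * Real.log s) := by
    rw [← hs2, one_div, Real.log_inv, Real.log_pow]; norm_num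
  rw [hlog, ← hs2]
  have e1 : (1 : ℝ) / s ^ 2 = s⁻¹ ^ 2 := by rw [one_div, inv_pow]
  rw [e1]
  have hi : s⁻¹ ≤ 1 - θ / 4 := by
    rw [inv_le_comm₀ hs0 (by linarith)]
    rw [inv_le_iff_one_le_mul₀ (by linarith)]
    nlinarith [mul_nonneg h0.le (sub_nonneg.2 h1), sq_nonneg (s * (1 - θ / 4)),
      mul_nonneg hs0.le (by linarith : (0:ℝ) ≤ 1 - θ / 4), mul_nonneg (mul_nonneg h0.le h0.le) h0.le]
  have hi0 : 0 < s⁻¹ := inv_pos.2 hs0
  have h5 : (θ / 4) ^ 2 ≤ (1 - s⁻¹) ^ 2 := pow_le_pow_left₀ (by linarith) (by linarith) 2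
  nlinarith

theorem gam_lower {v : ℝ} (h0 : 1 < v) (h1 : v ≤ 2) :
    (v - 1) ^ 2 / 18 ≤ (v - 1 - Real.log v) / v := by
  set s := Real.sqrt v with hs
  have hv : 0 < v := by linarith
  have hs2 : s ^ 2 = v := Real.sq_sqrt hv.le
  have hs0 : 0 < s := Real.sqrt_pos.2 hv
  have hs1 : 1 ≤ s := by rw [hs]; exact Real.one_le_sqrt.2 h0.le
  have hsle : s ≤ 2 := by nlinarith
  have hl : Real.log s ≤ s - 1 := Real.log_le_sub_one_of_pos hs0
  have hlog : Real.log v = 2 * Real.log s := by rw [← hs2, Real.log_pow]; norm_num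
  rw [le_div_iff₀ hv, hlog]
  have h2 : (v - 1) ^ 2 ≤ 9 * (s - 1) ^ 2 := by
    have e : v - 1 = (s - 1) * (s + 1) := by rw [← hs2]; ring
    rw [e, mul_pow]
    have : (s + 1) ^ 2 ≤ 9 := by nlinarith
    nlinarith [sq_nonneg (s - 1)]
  have h3 : (v - 1) ^ 2 / 18 * v ≤ (s - 1) ^ 2 := by
    have h4 : (v - 1) ^ 2 / 18 * v ≤ (v - 1) ^ 2 / 18 * 2 :=
      mul_le_mul_of_nonneg_left h1 (by positivity)
    linarith
  refine h3.trans ?_
  nlinarith

/-- short windows -/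
theorem window_short (f : ℝ → ℝ) (hf : Continuous f) (hf0 : ∀ t, 0 ≤ f t)
    (hA : ∃ C : ℝ, ∃ A : ℕ, ∀ t : ℝ, 0 ≤ t → f t ≤ C * (1 + t) ^ A) (c : ℝ) (hc : 0 ≤ c) (m : ℕ)
    (h : ∀ᶠ T : ℝ in atTop, ∀ k : ℕ, Real.log T ^ 2 ≤ k → (k : ℝ) ≤ 4 * Real.log T ^ 2 →
      c * Real.log T ^ m ≤ ∫ t in Set.Ioi (0 : ℝ), om k (k / T) t * f t)
    (α : ℝ) (hα0 : 0 ≤ α) (hα : α < 1 / 2) :
    ∀ c' < c, ∀ᶠ T : ℝ in atTop, ∀ H : ℝ, T / Real.log T ^ α ≤ H → H ≤ T →
      c' * H * Real.log T ^ m ≤ ∫ t in T..(T + H), f t := by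
  intro c' hc'
  obtain ⟨η, hη0, hη1, hη2⟩ : ∃ η : ℝ, 0 < η ∧ η < 1 / 4 ∧ c' < c * (1 - 2 * η) := by
    have h1 : Tendsto (fun θ : ℝ => c * (1 - 2 * θ)) (𝓝[>] 0) (𝓝 (c * (1 - 2 * 0))) :=
      (Continuous.tendsto (by fun_prop) 0).mono_left nhdsWithin_le_nhds
    rw [mul_zero, sub_zero, mul_one] at h1
    have h2 := h1.eventually_const_lt hc'
    have h3 : ∀ᶠ θ : ℝ in 𝓝[>] 0, θ < 1 / 4 :=
      (eventually_lt_nhds (by norm_num)).filter_mono nhdsWithin_le_nhds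
    have h4 : ∀ᶠ θ : ℝ in 𝓝[>] 0, 0 < θ := self_mem_nhdsWithin
    obtain ⟨θ, ha, hb, hc⟩ := (h2.and (h3.and h4)).exists
    exact ⟨θ, hc, hb, ha⟩
  obtain ⟨C, A, hCA⟩ := hA
  have hC : 0 ≤ C := by
    have := hCA 0 le_rfl
    simp only [add_zero, one_pow, mul_one] at this
    exact (hf0 0).trans this
  obtain ⟨T0, hT0⟩ := eventually_atTop.1 h
  set κ0 := c * (1 - 2 * η) - c' with hκ0
  have hκ0' : 0 < κ0 := by linarith
  have hlog := Real.tendsto_log_atTop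
  have hpow : Tendsto (fun T : ℝ => Real.log T ^ (1 - 2 * α)) atTop atTop :=
    (tendsto_rpow_atTop (by linarith)).comp hlog
  have hTL : ∀ᶠ T : ℝ in atTop, Real.log T ≤ T := by
    filter_upwards [eventually_gt_atTop 0] with T hT
    have := Real.log_le_sub_one_of_pos hT
    linarith
  filter_upwards [hlog.eventually_ge_atTop (max 1 (5 * Real.log 2)),
    hpow.eventually_ge_atTop ((2 * (A : ℝ) + 5) * 36 / η ^ 2),
    hTL,
    eventually_ge_atTop (max (max 1 T0) (max (C * 2 ^ A) (2 / κ0)))] with T t4 t5 tL t6 H hH1 hH2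
  set L := Real.log T with hL
  have hL1 : 1 ≤ L := (le_max_left _ _).trans t4
  have hL5 : 5 * Real.log 2 ≤ L := (le_max_right _ _).trans t4
  have hL0 : 0 < L := by linarith
  have hT1 : 1 ≤ T := (le_max_left _ _).trans ((le_max_left _ _).trans t6)
  have hT0' : T0 ≤ T := (le_max_right _ _).trans ((le_max_left _ _).trans t6)
  have hTpos : 0 < T := by linarith
  have hCT : C * 2 ^ A ≤ T := (le_max_left _ _).trans ((le_max_right _ _).trans t6)
  have hκT : 2 / κ0 ≤ T := (le_max_right _ _).trans ((le_max_right _ _).trans t6)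
  have hLα0 : 0 < L ^ α := Real.rpow_pos_of_pos hL0 α
  have hLα : L ^ α ≤ L := by
    calc L ^ α ≤ L ^ (1 : ℝ) := Real.rpow_le_rpow_of_exponent_le hL1 (by linarith)
      _ = L := Real.rpow_one L
  have hH0 : 1 ≤ H := by
    refine le_trans ?_ hH1
    rw [le_div_iff₀ hLα0]
    linarith
  obtain ⟨δ, hδ⟩ : ∃ δ : ℝ, δ = H / T := ⟨_, rfl⟩
  have hδT : δ * T = H := by rw [hδ]; field_simp
  have hδ0 : 0 < δ := by rw [hδ]; positivity
  have hδ1 : δ ≤ 1 := by rw [hδ, div_le_one hTpos]; exact hH2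
  have hδL : 1 / L ^ α ≤ δ := by
    rw [hδ, le_div_iff₀ hTpos]
    rw [one_div_mul_eq_div]
    exact hH1
  set θ := η * δ with hθ
  have hθ0 : 0 < θ := by positivity
  have hθδ : θ < δ / 4 := by rw [hθ]; nlinarith
  have hθ1 : θ ≤ 1 := by linarith
  -- lower bound for θ^2 L
  have hθL : (2 * (A : ℝ) + 5) * 36 ≤ θ ^ 2 * L := by
    have h1 : (2 * (A : ℝ) + 5) * 36 ≤ η ^ 2 * L ^ (1 - 2 * α) := by
      rw [div_le_iff₀ (by positivity)] at t5
      linarith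
    refine h1.trans ?_
    have h2 : L ^ (1 - 2 * α) = L / (L ^ α) ^ 2 := by
      rw [Real.rpow_sub hL0, Real.rpow_one, mul_comm 2 α, Real.rpow_mul hL0.le]
      norm_num
    rw [h2, hθ, mul_pow, mul_assoc]
    apply mul_le_mul_of_nonneg_left _ (by positivity)
    rw [div_eq_mul_one_div, mul_comm]
    apply mul_le_mul_of_nonneg_right _ hL0.le
    have h3 : (1 / L ^ α) ^ 2 ≤ δ ^ 2 := pow_le_pow_left₀ (by positivity) hδL 2
    rwa [div_pow, one_pow] at h3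
  set σ : ℝ := (1 + δ - θ) / (1 + δ) with hσ
  have hσ0 : 0 < σ := by
    have : 0 < 1 + δ - θ := by linarith
    positivity
  have hσ1 : σ < 1 := by rw [hσ, div_lt_one (by positivity)]; linarith
  have hv0 : 1 < 1 / σ := by rw [lt_div_iff₀ hσ0]; linarith
  have hvσ : 1 / σ = 1 + θ / (1 + δ - θ) := by
    have : 1 + δ - θ ≠ 0 := by linarith
    rw [hσ]; field_simp; ring
  have hvθ : θ / 2 ≤ 1 / σ - 1 := by
    rw [hvσ, add_sub_cancel_left]
    apply div_le_div_of_nonneg_left hθ0.le (by linarith) (by linarith)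
  have hv2 : 1 / σ ≤ 2 := by
    rw [hvσ]
    have : θ / (1 + δ - θ) ≤ 1 := by rw [div_le_one (by linarith)]; linarith
    linarith
  have hγ := gam_lower hv0 hv2
  have hγ2 : θ ^ 2 / 72 ≤ (1 / σ - 1 - Real.log (1 / σ)) / (1 / σ) := by
    refine le_trans ?_ hγ
    have : (θ / 2) ^ 2 ≤ (1 / σ - 1) ^ 2 := pow_le_pow_left₀ (by positivity) hvθ 2
    nlinarith
  have hg := g_lower hθ0 hθ1
  set g := 1 / (1 + θ) - 1 - Real.log (1 / (1 + θ)) with hgdef
  obtain ⟨T', hT'⟩ : ∃ T' : ℝ, T' = T + H := ⟨_, rfl⟩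
  rw [← hT']
  have hT'2 : T' = (1 + δ) * T := by rw [hT', ← hδT]; ring
  have hTT : T ≤ T' := by rw [hT']; linarith
  have hT'0 : 0 < T' := by linarith
  set a := (1 + θ) * T with ha
  set b := (1 + δ - θ) * T with hb
  have ha0 : 0 < a := by positivity
  have hab : a ≤ b := by
    rw [ha, hb]
    apply mul_le_mul_of_nonneg_right _ hTpos.le
    linarith
  have hba : b - a = (1 - 2 * η) * H := by rw [ha, hb, ← hδT, hθ]; ring
  have hTa : T ≤ a := by rw [ha]; nlinarith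
  have hbT : b ≤ T' := by
    rw [hb, hT'2]
    apply mul_le_mul_of_nonneg_right _ hTpos.le
    linarith
  have hbσ : b = σ * T' := by
    rw [hb, hσ, hT'2]
    field_simp
  set L' := Real.log T' with hL'
  have hL'eq : L' = Real.log (1 + δ) + L := by
    rw [hL', hT'2, Real.log_mul (by positivity) hTpos.ne']
  have hLL' : L ≤ L' := Real.log_le_log hTpos hTT
  have hlog2 : Real.log (1 + δ) ≤ Real.log 2 := Real.log_le_log (by linarith) (by linarith)
  have hL'6 : L' ≤ 6 / 5 * L := by rw [hL'eq]; linarith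
  set k : ℕ := ⌈2 * L' ^ 2⌉₊ with hk
  have hk1 : 2 * L' ^ 2 ≤ k := Nat.le_ceil _
  have hk2 : (k : ℝ) < 2 * L' ^ 2 + 1 := Nat.ceil_lt_add_one (by positivity)
  have hL2' : L ^ 2 ≤ L' ^ 2 := pow_le_pow_left₀ hL0.le hLL' 2
  have hL1' : 1 ≤ L ^ 2 := one_le_pow₀ hL1
  have hk3 : 1 ≤ k := by
    have : (1 : ℝ) ≤ k := by linarith
    exact_mod_cast this
  have hlow : ∀ x ∈ Set.Ioc a b,
      c * L ^ m ≤ ∫ t in Set.Ioi (0 : ℝ), om k (k / x) t * f t := by
    intro x hx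
    have hx0 : 0 < x := ha0.trans hx.1
    have hTx : T ≤ x := hTa.trans hx.1.le
    have hlx : L ≤ Real.log x := Real.log_le_log hTpos hTx
    have hlx2 : Real.log x ≤ L' := Real.log_le_log hx0 (hx.2.trans hbT)
    have hlx0 : 0 ≤ Real.log x := by linarith
    refine le_trans ?_ (hT0 x (hT0'.trans hTx) k ?_ ?_)
    · apply mul_le_mul_of_nonneg_left _ hc
      exact pow_le_pow_left₀ (by positivity) hlx m
    · have : Real.log x ^ 2 ≤ L' ^ 2 := pow_le_pow_left₀ hlx0 hlx2 2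
      have h0 : 0 ≤ L' ^ 2 := sq_nonneg L'
      linarith
    · have h1 : L ^ 2 ≤ Real.log x ^ 2 := pow_le_pow_left₀ hL0.le hlx 2
      have h2 : L' ^ 2 ≤ (6 / 5 * L) ^ 2 := pow_le_pow_left₀ (by linarith) hL'6 2
      have h3 : (6 / 5 * L) ^ 2 = 36 / 25 * L ^ 2 := by ring
      linarith
  have htail : ∀ t, T' < t → f t * Ph k (k * t / b) ≤ t ^ (-2 : ℝ) := by
    intro t ht
    rw [hbσ]
    refine tail_bound hf0 hC hCA hσ0 hσ1 (hT1.trans hTT) (hCT.trans hTT) (hL1.trans hLL') ?_ hk1 ht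
    have h1 : 2 * (θ ^ 2 / 72) * L ≤
        2 * ((1 / σ - 1 - Real.log (1 / σ)) / (1 / σ)) * L' :=
      mul_le_mul (by linarith) hLL' hL0.le (by
        have : 0 ≤ θ ^ 2 / 72 := by positivity
        linarith)
    refine le_trans ?_ h1
    linarith
  have hhead : ∀ t, 0 < t → t ≤ T → f t * (1 - Ph k (k * t / a)) ≤ 1 / T ^ 2 := by
    intro t ht0 ht
    refine head_bound (g := g) hf0 hC hCA (by linarith : 1 < 1 + θ) hgdef hT1 hCT ?_ ?_ ht0 ht
    · have h1 : 2 * (θ ^ 2 / 16) * L ≤ 2 * g * L :=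
        mul_le_mul_of_nonneg_right (by linarith) hL0.le
      refine le_trans ?_ h1
      have : (0 : ℝ) ≤ A := Nat.cast_nonneg A
      linarith
    · linarith
  have hmain := main_T' hf hf0 hk3 ha0 hab hTpos hTT (by positivity) hlow hhead htail
  rw [hba] at hmain
  have hLm : 1 ≤ L ^ m := one_le_pow₀ hL1
  have h1T : 1 / T' ≤ 1 / T := one_div_le_one_div_of_le hTpos hTT
  have h3 : 2 * (1 / T) ≤ κ0 * (H * L ^ m) := by
    have h5 : 2 * (1 / T) ≤ κ0 := by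
      rw [div_le_iff₀ hκ0'] at hκT
      rw [mul_one_div, div_le_iff₀ hTpos]; linarith
    have h6 : 1 ≤ H * L ^ m := by nlinarith
    have h7 : κ0 * 1 ≤ κ0 * (H * L ^ m) := mul_le_mul_of_nonneg_left h6 hκ0'.le
    linarith
  have h4 : c' * H * L ^ m = c * L ^ m * ((1 - 2 * η) * H) - κ0 * (H * L ^ m) := by
    rw [hκ0]; ring
  rw [h4]
  linarith

end

end Pool.Agent.H176RZ
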