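import Pool.Agent.H601R2.EighthLocal
import Pool.Agent.H176RZ.Window

set_option autoImplicit false

/-! The eighth moment lower bound on `[T, T + H]`, `H ≥ T / (log T)^α`, `α < 1/2`. -/

namespace Pool.Agent.H176RZ

open Finset Filter Topology MeasureTheory Complex
open Pool.Agent.H306R2 Pool.Agent.H306R2.SM Pool.Agent.H223.EM Pool.Agent.H601R2.EighthLocal

noncomputable section

theorem eighth_short_aux (α : ℝ) (hα0 : 0 ≤ α) (hα : α < 1 / 2) : ∀ᶠ T : ℝ in atTop,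
    ∀ H : ℝ, T / Real.log T ^ α ≤ H → H ≤ T →
    779 * aF 4 / (Nat.factorial 16 : ℝ) * H * Real.log T ^ 16 ≤
      ∫ t in T..(T + H), ‖riemannZeta (1 / 2 + t * Complex.I)‖ ^ 8 := by
  obtain ⟨c1, hc1, hm⟩ := eighth_window
  have ha : 0 < aF 4 := aF_pos (by norm_num)
  have hF : (0 : ℝ) < (Nat.factorial 16 : ℝ) := by exact_mod_cast Nat.factorial_pos 16
  have hc10 : 0 ≤ c1 := by
    refine le_trans ?_ hc1.le
    positivity
  have hcont : Continuous (fun t : ℝ => ‖riemannZeta (cl t)‖ ^ 8) :=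
    (Pool.Agent.H56R2.EM_MF2.zeta_cont.norm).pow 8
  exact window_short (fun t : ℝ => ‖riemannZeta (cl t)‖ ^ 8) hcont
    (fun t => by positivity)
    ⟨24 ^ 8, 16, fun t ht => by
      calc ‖riemannZeta (cl t)‖ ^ 8 ≤ (24 * (1 + t) ^ 2) ^ 8 :=
            pow_le_pow_left₀ (norm_nonneg _) (Pool.Agent.H56R2.EM_MF2.zeta_bound t ht) 8
        _ = _ := by ring⟩ c1 hc10 16 (by
      filter_upwards [hm] with T hT k hk1 hk2
      exact hT k ⟨hk1, hk2⟩) α hα0 hα _ hc1

end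

end Pool.Agent.H176RZ
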